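import Pool.Agent.H21.NX.Window

/-!
# The window for arbitrary multiplicities at most `M`

Let `ℓ = binom(M + r - 1, r)`, `N = binom(d + r, r)`, `M ≤ d + 1`, all `m a ≤ M`, `L` the sum of the
lengths.  If `V(m, M, …, M) ≠ 0` with `ℓ - 1` copies of `M`, then `dim V(m) + L = N`
(`decouple`, point after point).  Hence `V(m) = 0` if at least `ℓ - 1` of the `m a` are equal to `M`
and `N + (ℓ - 1) ℓ < L`, and always `dim V(m) ≤ max (N - L) 0 + ℓ (ℓ + 1)`.
-/

namespace Pool.Agent.H74.SC.WinD

open Finset MvPolynomial Pool.Agent.H18.Fat Pool.Agent.H18.Ex Pool.Agent.H21.NX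
  Pool.Agent.H21.NX.GenBX

theorem gdim_le_comp (r d : ℕ) {κ κ' : Type} [Fintype κ] [Fintype κ'] (φ : κ' → κ)
    (hφ : Function.Injective φ) (m : κ → ℕ) : gdim r d m ≤ gdim r d fun i => m (φ i) := by
  obtain ⟨p₀, hp₀⟩ := gdim_attained r d fun i => m (φ i)
  have hfin := finite_fat (d := d) p₀ fun i => m (φ i)
  have h1 := gdim_le r d m (Function.extend φ p₀ fun _ _ => 0)
  have h2 : fatForms r d (Function.extend φ p₀ fun _ _ => 0) m ≤
      fatForms r d p₀ fun i => m (φ i) := by
    have h3 := fat_comp_le (d := d) φ (Function.extend φ p₀ fun _ _ => 0) m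
    have h4 : (fun i => Function.extend φ p₀ (fun _ _ => 0) (φ i)) = p₀ :=
      funext fun i => hφ.extend_apply p₀ _ i
    rwa [h4] at h3
  have h3 := Submodule.finrank_mono h2
  omega

theorem gdim_isEmpty (r d : ℕ) {κ : Type} [IsEmpty κ] (m : κ → ℕ) :
    gdim r d m = (d + r).choose r := by
  rw [← gdim_empty r d (fun i => i.elim0), ← gdim_comp_equiv r d
    (Equiv.equivOfIsEmpty κ (Fin 0)) (fun i => i.elim0)]
  congr 1
  funext i
  exact isEmptyElim i

theorem alive (r d : ℕ) (hr : 1 ≤ r) (M : ℕ) (hMd : M ≤ d + 1) (κ : Type) [Fintype κ] :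
    ∀ m : κ → ℕ, (∀ a, m a ≤ M) →
      gdim r d (Sum.elim m fun _ : Fin (ell r M - 1) => M) ≠ 0 →
      gdim r d m + ∑ a, ell r (m a) = (d + r).choose r := by
  refine Fintype.induction_empty_option (P := fun κ _ => ∀ m : κ → ℕ, (∀ a, m a ≤ M) →
      gdim r d (Sum.elim m fun _ : Fin (ell r M - 1) => M) ≠ 0 →
      gdim r d m + ∑ a, ell r (m a) = (d + r).choose r) ?_ ?_ ?_ κ
  · intro α β inst1 e ih m hm hne
    let _ : Fintype α := Fintype.ofEquiv β e.symm
    have h1 := ih (fun a => m (e a)) (fun a => hm _) (by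
      intro h0
      apply hne
      have h2 := gdim_le_comp r d (Sum.map e id : α ⊕ Fin (ell r M - 1) → β ⊕ Fin (ell r M - 1))
        (Function.Injective.sumMap e.injective Function.injective_id)
        (Sum.elim m fun _ : Fin (ell r M - 1) => M)
      have h3 : (fun i => Sum.elim m (fun _ : Fin (ell r M - 1) => M)
          ((Sum.map e id : α ⊕ Fin (ell r M - 1) → β ⊕ Fin (ell r M - 1)) i)) =
          Sum.elim (fun a => m (e a)) fun _ : Fin (ell r M - 1) => M := by
        funext i
        rcases i with i | i <;> rfl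
      rw [h3, h0] at h2
      omega)
    rw [gdim_comp_equiv r d e m] at h1
    rw [← h1]
    congr 1
    exact (Fintype.sum_equiv e _ _ fun a => rfl).symm
  · intro m _ _
    rw [gdim_isEmpty, Fintype.sum_empty, Nat.add_zero]
  · intro α inst1 ih m hm hne
    classical
    have hcomp : ∀ e : ℕ, e ≤ ell r M - 1 →
        gdim r d (Sum.elim (fun a => m (some a)) fun _ : Fin e => M) ≠ 0 := by
      intro e he h0
      apply hne
      have h2 := gdim_le_comp r d
        (Sum.map some (Fin.castLE he) : α ⊕ Fin e → Option α ⊕ Fin (ell r M - 1))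
        (Function.Injective.sumMap (Option.some_injective α) (Fin.castLE_injective he))
        (Sum.elim m fun _ : Fin (ell r M - 1) => M)
      have h3 : (fun i => Sum.elim m (fun _ : Fin (ell r M - 1) => M)
          ((Sum.map some (Fin.castLE he) : α ⊕ Fin e → Option α ⊕ Fin (ell r M - 1)) i)) =
          Sum.elim (fun a => m (some a)) fun _ : Fin e => M := by
        funext i
        rcases i with i | i <;> rfl
      rw [h3, h0] at h2
      omega
    have h1 := ih (fun a => m (some a)) (fun a => hm _) (hcomp _ le_rfl)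
    have hle : ell r (m none) ≤ ell r M := ell_mono r (hm none)
    have h2 := decouple r d hr (fun a => m (some a)) (m none) M (fun a => hm _) (hm none)
      ((hm none).trans hMd) (hcomp _ (by omega))
    have h3 : gdim r d (Sum.elim (fun a => m (some a)) fun _ : Unit => m none) = gdim r d m := by
      rw [← gdim_comp_equiv r d (Equiv.optionEquivSumPUnit.{0, 0} α).symm m]
      congr 1
      funext i
      rcases i with i | i <;> rfl
    rw [h3] at h2
    rw [Fintype.sum_option]
    omega

theorem over_zero (r d : ℕ) (hr : 1 ≤ r) (M : ℕ) (hMd : M ≤ d + 1) {κ : Type} [Fintype κ] (m : κ → ℕ)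
    (hm : ∀ a, m a ≤ M) (hc : ell r M - 1 ≤ (univ.filter fun a => m a = M).card)
    (hL : (d + r).choose r + (ell r M - 1) * ell r M < ∑ a, ell r (m a)) : gdim r d m = 0 := by
  classical
  by_contra hne
  obtain ⟨S, hS, hcard⟩ := Finset.exists_subset_card_eq hc
  let e : Fin (ell r M - 1) ≃ S := (Fintype.equivFinOfCardEq (by simpa using hcard)).symm
  let φ : {a // a ∉ S} ⊕ Fin (ell r M - 1) → κ := Sum.elim (fun a => a.1) fun j => (e j).1
  have hφ : Function.Injective φ := by
    rintro (a | a) (b | b) h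
    · exact congrArg Sum.inl (Subtype.ext h)
    · have h' : a.1 = (e b).1 := h
      exact absurd (h' ▸ (e b).2) a.2
    · have h' : (e a).1 = b.1 := h
      exact absurd (h' ▸ (e a).2) b.2
    · exact congrArg Sum.inr (e.injective (Subtype.ext h))
  have h1 := gdim_le_comp r d φ hφ m
  have h2 : (fun i => m (φ i)) =
      Sum.elim (fun a : {a // a ∉ S} => m a.1) fun _ : Fin (ell r M - 1) => M := by
    funext i
    rcases i with i | i
    · rfl
    · exact (mem_filter.1 (hS (e i).2)).2
  rw [h2] at h1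
  have h3 := alive r d hr M hMd {a // a ∉ S} (fun a => m a.1) (fun a => hm _) (by omega)
  have h4 : ∑ a : {a // a ∉ S}, ell r (m a.1) + (ell r M - 1) * ell r M = ∑ a, ell r (m a) := by
    have h5 : ∑ a : {a // a ∉ S}, ell r (m a.1) = ∑ a ∈ univ \ S, ell r (m a) := by
      rw [← Finset.sum_subtype (univ \ S) (fun a => by simp) fun a => ell r (m a)]
    have h6 : ∑ a ∈ S, ell r (m a) = (ell r M - 1) * ell r M := by
      rw [Finset.sum_congr rfl fun a ha => by rw [(mem_filter.1 (hS ha)).2], Finset.sum_const,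
        hcard, smul_eq_mul]
    rw [h5, ← h6, Finset.sum_sdiff (Finset.subset_univ S)]
  omega

theorem bound (r d : ℕ) (hr : 1 ≤ r) (M : ℕ) (hM : 1 ≤ M) (hMd : M ≤ d + 1) {κ : Type} [Fintype κ]
    (m : κ → ℕ) (hm : ∀ a, m a ≤ M) :
    gdim r d m ≤ ((d + r).choose r - ∑ a, ell r (m a)) + ell r M * (ell r M + 1) := by
  classical
  have hℓ : 1 ≤ ell r M := ell_pos r hM
  set N := (d + r).choose r with hN
  set L := ∑ a, ell r (m a) with hLdef
  -- add `j` points of multiplicity `M`
  set j := (N - L) / ell r M + ell r M + 1 with hj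
  have h1 := le_gdim_elim r d hr m fun _ : Fin j => M
  rw [Finset.sum_const, Finset.card_univ, Fintype.card_fin, smul_eq_mul] at h1
  have hsum : ∑ a, ell r (Sum.elim m (fun _ : Fin j => M) a) = L + j * ell r M := by
    rw [Fintype.sum_sum_type]
    simp [hLdef]
  have hdiv : N - L < ((N - L) / ell r M + 1) * ell r M := by
    have := Nat.lt_div_mul_add (a := N - L) hℓ
    rw [Nat.add_mul, Nat.one_mul]
    exact this
  have hjl : j * ell r M = ((N - L) / ell r M + 1) * ell r M + ell r M * ell r M := by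
    rw [hj]; ring
  have h0 : gdim r d (Sum.elim m fun _ : Fin j => M) = 0 := by
    refine over_zero r d hr M hMd _ ?_ ?_ ?_
    · rintro (a | a)
      · exact hm a
      · exact le_rfl
    · refine le_trans ?_ (Finset.card_le_card (s := univ.map
        ⟨(Sum.inr : Fin j → κ ⊕ Fin j), Sum.inr_injective⟩) ?_)
      · rw [Finset.card_map, Finset.card_univ, Fintype.card_fin, hj]
        exact (Nat.sub_le _ _).trans ((Nat.le_add_left _ _).trans (Nat.le_succ _))
      · intro a ha
        rw [Finset.mem_map] at ha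
        obtain ⟨b, _, rfl⟩ := ha
        simp
    · rw [hsum, hjl]
      have h5 : (ell r M - 1) * ell r M ≤ ell r M * ell r M :=
        Nat.mul_le_mul_right _ (Nat.sub_le _ _)
      have h6 : N ≤ L + (N - L) := by omega
      generalize (ell r M - 1) * ell r M = A at h5 ⊢
      generalize ell r M * ell r M = B at h5 ⊢
      generalize ((N - L) / ell r M + 1) * ell r M = D at hdiv ⊢
      omega
  have hfl : (N - L) / ell r M * ell r M ≤ N - L := Nat.div_mul_le_self _ _
  have h7 : ell r M * (ell r M + 1) = ell r M * ell r M + ell r M := by ring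
  rw [h0, hjl, Nat.add_mul, Nat.one_mul] at h1
  omega

theorem exact_under (r d : ℕ) (hr : 1 ≤ r) (M : ℕ) {k : ℕ} (m : Fin k → ℕ) (hm : ∀ i, m i ≤ M)
    (hL : ∑ i, ell r (m i) + ell r M ^ 2 ≤ (d + r).choose r) :
    ForGeneralPoints r k fun p => ImposesMaximalConditions r d p m := by
  refine window_fin r d hr M m hm fun i _ => le_trans (Nat.add_le_add
    (Finset.sum_le_sum_of_subset (Finset.filter_subset _ _)) ?_) hL
  rw [pow_two]
  exact Nat.mul_le_mul ((Nat.sub_le _ _).trans (ell_mono r (hm i))) (Nat.sub_le _ _)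

theorem exact_over (r d : ℕ) (hr : 1 ≤ r) (M : ℕ) (hM : 1 ≤ M) (hMd : M ≤ d + 1) {k : ℕ}
    (m : Fin k → ℕ) (hm : ∀ i, m i ≤ M)
    (hc : ell r M - 1 ≤ (univ.filter fun i => m i = M).card)
    (hL : (d + r).choose r + ell r M ^ 2 ≤ ∑ i, ell r (m i)) :
    ForGeneralPoints r k fun p => ImposesMaximalConditions r d p m := by
  have hℓ : 1 ≤ ell r M := ell_pos r hM
  have h0 := over_zero r d hr M hMd m hm hc (by
    refine lt_of_lt_of_le ?_ hL
    have h5 : (ell r M - 1) * ell r M < ell r M ^ 2 := by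
      rw [pow_two]
      exact Nat.mul_lt_mul_of_pos_right (by omega) hℓ
    omega)
  have hg : Gen r (Fin k) fun p => ImposesMaximalConditions r d p m := by
    refine (gen_gdim r d m).mono fun p hp => ?_
    unfold ImposesMaximalConditions
    rw [hp, h0]
    have e1 : (((∑ i, ell r (m i) : ℕ)) : ℤ) = ∑ i, (((m i + r - 1).choose r : ℕ) : ℤ) := by
      rw [Nat.cast_sum]
      rfl
    rw [← e1]
    have h6 : 1 ≤ ell r M ^ 2 := Nat.one_le_pow _ _ hℓ
    omega
  exact hg

/-- All tuples with multiplicities at most `M`: the dimension is the expected one up to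
`ℓ (ℓ + 1)`. -/
theorem general_bound (r d : ℕ) (hr : 1 ≤ r) (M : ℕ) (hM : 1 ≤ M) (hMd : M ≤ d + 1) {k : ℕ}
    (m : Fin k → ℕ) (hm : ∀ i, m i ≤ M) :
    ForGeneralPoints r k fun p =>
      (Module.finrank ℂ (fatForms r d p m) : ℤ) ≤
        max 0 (((d + r).choose r : ℤ) - ∑ i, (((m i + r - 1).choose r : ℕ) : ℤ)) +
          (ell r M * (ell r M + 1) : ℕ) := by
  have h := bound r d hr M hM hMd m hm
  have hg : Gen r (Fin k) fun p =>
      (Module.finrank ℂ (fatForms r d p m) : ℤ) ≤
        max 0 (((d + r).choose r : ℤ) - ∑ i, (((m i + r - 1).choose r : ℕ) : ℤ)) +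
          (ell r M * (ell r M + 1) : ℕ) := by
    refine (gen_gdim r d m).mono fun p hp => ?_
    rw [hp]
    have e1 : (((∑ i, ell r (m i) : ℕ)) : ℤ) = ∑ i, (((m i + r - 1).choose r : ℕ) : ℤ) := by
      rw [Nat.cast_sum]
      rfl
    rw [← e1]
    omega
  exact hg

end Pool.Agent.H74.SC.WinD
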