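import Pool.Agent.H74.BP.PlaneT

/-!
# Points in the order of decreasing multiplicities
-/

namespace Pool.Agent.H74.SC

open Finset Pool.Agent.H18.Cub Pool.Agent.H18.Pr Pool.Agent.H18.Fat Pool.Agent.H18.Ub
  Pool.Agent.H18.Nef Pool.Agent.H74.BP Pool.Agent.H74.CT

/-- Independent conditions, the points of `A` in the order of decreasing multiplicities. -/
theorem elem_desc (s j : ℕ) {k : ℕ} (m : Fin k → ℕ) (J : Finset (Fin k)) : ∀ (n : ℕ)
    (A : Finset (Fin k)), A.card = n → Disjoint J A →
    (∀ i ∈ A, ∃ e, e + m i ≤ j + 1 ∧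
      ∑ l ∈ A.filter (fun l => m i ≤ m l), (m l + (s + 2) - 1).choose (s + 2) ≤
        generalDim (s + 2) e fun i => if i ∈ J then m i else 0) →
    (generalDim (s + 2) j fun i => if i ∈ J ∪ A then m i else 0) +
        ∑ i ∈ A, (m i + (s + 2) - 1).choose (s + 2) =
      generalDim (s + 2) j fun i => if i ∈ J then m i else 0 := by
  classical
  intro n
  induction n with
  | zero =>
    intro A hA _ _
    rw [card_eq_zero.1 hA, union_empty, sum_empty, Nat.add_zero]
  | succ n ih =>
    intro A hAc hA h
    obtain ⟨P, hP, hmin⟩ := exists_min_image A m (card_pos.1 (by omega))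
    have hdis : Disjoint J (A.erase P) := hA.mono_right (erase_subset P A)
    have hPJ : P ∉ J := fun hJ => disjoint_left.1 hA hJ hP
    have hPe : P ∉ A.erase P := notMem_erase P A
    have hins : insert P (A.erase P) = A := insert_erase hP
    have ih' := ih (A.erase P) (by rw [card_erase_of_mem hP]; omega) hdis fun i hi => by
      obtain ⟨e, he1, he2⟩ := h i (mem_of_mem_erase hi)
      refine ⟨e, he1, le_trans (sum_le_sum_of_subset fun l hl => ?_) he2⟩
      rw [mem_filter] at hl ⊢
      exact ⟨mem_of_mem_erase hl.1, hl.2⟩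
    have hlow := dim_lower (r := s + 2) (by omega) j m J A hA
    refine le_antisymm ?_ hlow
    have hsum : ∑ i ∈ A, (m i + (s + 2) - 1).choose (s + 2) =
        (m P + (s + 2) - 1).choose (s + 2) +
          ∑ i ∈ A.erase P, (m i + (s + 2) - 1).choose (s + 2) := (add_sum_erase A _ hP).symm
    have hfil : A.filter (fun l => m P ≤ m l) = A := filter_true_of_mem hmin
    obtain ⟨e, he1, he2⟩ := h P hP
    rw [hfil] at he2
    rw [hsum] at he2 ⊢
    have hun := on_union m J (A.erase P) P hPJ hPe
    rw [hins] at hun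
    rw [hun]
    rcases Nat.eq_zero_or_pos (m P) with h0 | h0
    · have h1 : (m P + (s + 2) - 1).choose (s + 2) = 0 := Nat.choose_eq_zero_of_lt (by omega)
      have h2 : (generalDim (s + 2) j
          (Function.update (fun i => if i ∈ J ∪ A.erase P then m i else 0) P (m P))) ≤
          generalDim (s + 2) j fun i => if i ∈ J ∪ A.erase P then m i else 0 := by
        refine generalDim_anti fun i => ?_
        by_cases hi : i = P
        · rw [hi, Function.update_self]
          split_ifs <;> omega
        · rw [Function.update_of_ne hi]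
      omega
    · have h1 : 1 ≤ (m P + (s + 2) - 1).choose (s + 2) := Nat.choose_pos (by omega)
      have h2 := dim_lower (r := s + 2) (by omega) e m J (A.erase P) hdis
      have h3 := add_point s k j e (m P) (fun i => if i ∈ J ∪ A.erase P then m i else 0) P
        (if_neg (by
          rw [mem_union]
          rintro (h | h)
          · exact hPJ h
          · exact hPe h)) (by omega) he1
      omega

/-- The points outside `J` with multiplicity at least `x`. -/
def above {k : ℕ} (m : Fin k → ℕ) (J : Finset (Fin k)) (x : ℕ) : Finset (Fin k) :=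
  univ.filter fun l => l ∉ J ∧ x ≤ m l

theorem mem_above {k : ℕ} {m : Fin k → ℕ} {J : Finset (Fin k)} {x : ℕ} {l : Fin k} :
    l ∈ above m J x ↔ l ∉ J ∧ x ≤ m l := by
  unfold above
  rw [mem_filter]
  exact ⟨fun h => h.2, fun h => ⟨mem_univ l, h⟩⟩

theorem disjoint_above {k : ℕ} (m : Fin k → ℕ) (J : Finset (Fin k)) (x : ℕ) :
    Disjoint J (above m J x) := by
  rw [disjoint_left]
  intro i hi1 hi2
  exact (mem_above.1 hi2).1 hi1

/-- The points above a level, in the order of decreasing multiplicities. -/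
theorem elem_level (s j x : ℕ) {k : ℕ} (m : Fin k → ℕ) (J : Finset (Fin k))
    (h : ∀ i, i ∉ J → x ≤ m i → ∃ e, e + m i ≤ j + 1 ∧
      len (s + 2) m (above m J (m i)) ≤ generalDim (s + 2) e fun i => if i ∈ J then m i else 0) :
    (generalDim (s + 2) j fun i => if i ∈ J ∪ above m J x then m i else 0) +
        len (s + 2) m (above m J x) =
      generalDim (s + 2) j fun i => if i ∈ J then m i else 0 := by
  refine elem_desc s j m J _ _ rfl (disjoint_above m J x) fun i hi => ?_
  rw [mem_above] at hi
  obtain ⟨e, he1, he2⟩ := h i hi.1 hi.2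
  refine ⟨e, he1, le_trans (sum_le_sum_of_subset fun l hl => ?_) he2⟩
  rw [mem_filter, mem_above] at hl
  rw [mem_above]
  exact ⟨hl.1.1, hl.2⟩

/-- Slow growth, or independent conditions; points of medium multiplicity by scales. -/
theorem max_scale (r M : ℕ) (hr : 2 ≤ r) (hM : 1 ≤ M) (k d : ℕ) (m : Fin k → ℕ)
    (J : Finset (Fin k)) (h : ℕ → ℕ)
    (hh : ∀ j, h j = generalDim r j fun i => if i ∈ J then m i else 0)
    (hS : ∀ i, i ∉ J → M < m i → ∃ e, e + m i + 300 * r * M ^ (r + 4) ≤ d ∧
      len r m (above m J (m i)) ≤ h e)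
    (hyp : 16 * M ^ 2 * (M + r - 1).choose r * ((h d - h (d - 1)) -
        (h (d - 66 * M ^ 3 * (M + r - 1).choose r) -
          h (d - 66 * M ^ 3 * (M + r - 1).choose r - 1))) ≤ h d - h (d - 1) ∨
      300 * r * M ^ (r + 4) ≤ d ∧ (h (d - 300 * r * M ^ (r + 4)) : ℤ) =
        ((d - 300 * r * M ^ (r + 4) + r).choose r : ℤ) -
          ∑ i ∈ J, ((m i + r - 1).choose r : ℤ)) : Max r d m J := by
  classical
  obtain ⟨s, rfl⟩ : ∃ s, r = s + 2 := ⟨r - 2, by omega⟩
  set A := above m J (M + 1) with hA
  set L := J ∪ A with hL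
  have hJL : J ⊆ L := subset_union_left
  have hLM : ∀ i, i ∉ L → m i ≤ M := by
    intro i hi
    by_contra hcon
    rw [hL, mem_union, hA, mem_above] at hi
    by_cases hiJ : i ∈ J
    · exact hi (Or.inl hiJ)
    · exact hi (Or.inr ⟨hiJ, by omega⟩)
  set F := 300 * (s + 2) * M ^ (s + 2 + 4) with hF
  set C := 66 * M ^ 3 * (M + (s + 2) - 1).choose (s + 2) with hC
  have hCD : C ≤ F := by
    have h1 := Pool.Agent.H74.CT.choose_le_pow M hM (s + 2)
    calc 66 * M ^ 3 * (M + (s + 2) - 1).choose (s + 2) ≤ 66 * M ^ 3 * M ^ (s + 2) :=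
          Nat.mul_le_mul_left _ h1
      _ = 66 * M ^ (s + 2 + 3) := by ring
      _ ≤ 300 * (s + 2) * M ^ (s + 2 + 4) := by
          refine Nat.mul_le_mul (by omega) (Nat.pow_le_pow_right hM (by omega))
  set g : ℕ → ℕ := fun j => generalDim (s + 2) j fun i => if i ∈ L then m i else 0 with hg
  have hval : ∀ j, d ≤ j + F + 1 → g j + len (s + 2) m A = h j := by
    intro j hj
    rw [hh]
    refine elem_level s j (M + 1) m J fun i hi hx => ?_
    obtain ⟨e, he1, he2⟩ := hS i hi (by omega)
    exact ⟨e, by omega, by rw [← hh]; exact he2⟩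
  have hlenL := len_split (s + 2) m hJL
  have hLJ : L \ J = A := by
    rw [hL, union_sdiff_left]
    exact sdiff_eq_self_of_disjoint (disjoint_above m J _).symm
  rw [hLJ] at hlenL
  have hmaxL : Max (s + 2) d m L := by
    unfold BP.Max
    rw [len_cast]
    rcases hyp with hyp | ⟨hD, hyp⟩
    · refine dim_of_slow (s + 2) hr M hM k d m L hLM g (fun _ => rfl) ?_
      have h1 := hval d (by omega)
      have h2 := hval (d - 1) (by omega)
      have h3 := hval (d - C) (by omega)
      have h4 := hval (d - C - 1) (by omega)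
      have h5 : g d - g (d - 1) = h d - h (d - 1) := by omega
      have h6 : g (d - C) - g (d - C - 1) = h (d - C) - h (d - C - 1) := by omega
      rw [h5, h6]
      exact hyp
    · refine dim_of_indep (s + 2) M hr hM k d m L hLM hD ?_
      have h1 := hval (d - F) (by omega)
      have h2 : ∑ i ∈ L, ((m i + (s + 2) - 1).choose (s + 2) : ℤ) =
          ∑ i ∈ J, ((m i + (s + 2) - 1).choose (s + 2) : ℤ) + (len (s + 2) m A : ℤ) := by
        rw [len_cast, hL, sum_union (disjoint_above m J _)]
      rw [h2]
      have h3 : ((g (d - F) : ℕ) : ℤ) + (len (s + 2) m A : ℤ) = (h (d - F) : ℤ) := by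
        exact_mod_cast h1
      have h4 : ((generalDim (s + 2) (d - F) fun i => if i ∈ L then m i else 0 : ℕ) : ℤ) =
          (g (d - F) : ℤ) := rfl
      rw [h4]
      linarith
  have h1 := hval d (by omega)
  refine hmaxL.mono fun p hp => ?_
  have h2 : ((generalDim (s + 2) d fun i => if i ∈ L then m i else 0 : ℕ) : ℤ) = (g d : ℤ) := rfl
  rw [hp, ← hh, hlenL, h2, ← h1]
  congr 1
  push_cast
  ring

end Pool.Agent.H74.SC
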