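import Pool.Agent.H74.SC.Off
import Pool.Agent.H74.KV.Anti3

/-!
# The large points impose independent conditions in slightly smaller degrees
-/

namespace Pool.Agent.H74.SC

open Finset Pool.Agent.H18.Cub Pool.Agent.H18.Pr Pool.Agent.H18.Fat Pool.Agent.H18.Ub
  Pool.Agent.H18.Nef Pool.Agent.H74.BP Pool.Agent.H74.KV

/-- Large points with slack, in all dimensions. -/
theorem gen_exact (r F : ℕ) (hr : 2 ≤ r) (ε : ℝ) (hε : 0 < ε) : ∃ d₀ : ℕ,
    ∀ (k d : ℕ) (m : Fin k → ℕ) (J : Finset (Fin k)), d₀ ≤ d → (∀ i ∈ J, ε * d ≤ m i) →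
    (2 ^ r * ∑ i ∈ J, (m i : ℝ) ^ r ≤ ((1 - ε) * d) ^ r ∨
      ∃ a : ℕ, (a : ℝ) ≤ (1 - ε) * d ∧ NefC a fun i => if i ∈ J then m i else 0) →
    F ≤ d ∧ ∀ j, d ≤ j + F → Exact r j m J := by
  classical
  obtain ⟨d₀, hd₀⟩ := srj_large r hr (ε / 2) (by positivity)
  obtain ⟨d₁, hd₁⟩ := exists_nat_ge (2 * F / ε)
  refine ⟨d₀ + F + d₁ + 1, fun k d m J hd hJ hor => ?_⟩
  have hd0 : (0 : ℝ) < d := by exact_mod_cast (by omega : 0 < d)
  have hFd : (F : ℝ) ≤ ε / 2 * d := by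
    have h1 : (2 * F / ε : ℝ) ≤ d := hd₁.trans (by exact_mod_cast (by omega : d₁ ≤ d))
    rw [div_le_iff₀ hε] at h1
    linarith
  have hcast : ((d - F : ℕ) : ℝ) = (d : ℝ) - F := Nat.cast_sub (by omega)
  have hF0 : (0 : ℝ) ≤ F := Nat.cast_nonneg F
  -- the slack in degree `d - F`
  have hx : ∃ x : Fin k → Fin r → ℂ, Srj r (d - F) J x m := by
    rcases le_or_gt ε 1 with hε1 | hε1
    · have hlin : (1 - ε) * (d : ℝ) ≤ (1 - ε / 2) * ((d - F : ℕ) : ℝ) := by
        rw [hcast]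
        have h1 : (1 - ε / 2) * ((d : ℝ) - ε / 2 * d) ≤ (1 - ε / 2) * (d - F) :=
          mul_le_mul_of_nonneg_left (by linarith) (by linarith)
        have h2 : (1 - ε / 2) * ((d : ℝ) - ε / 2 * d) = (1 - ε) * d + ε ^ 2 / 4 * d := by ring
        have h3 : (0 : ℝ) ≤ ε ^ 2 / 4 * d := by positivity
        linarith
      refine hd₀ k (d - F) m J (by omega) (fun i hi => ?_) ?_
      · refine le_trans ?_ (hJ i hi)
        rw [hcast]
        have h1 : ε / 2 * ((d : ℝ) - F) ≤ ε / 2 * d := mul_le_mul_of_nonneg_left (by linarith)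
          (by positivity)
        have h2 : ε / 2 * (d : ℝ) ≤ ε * d := by
          have : 0 ≤ ε / 2 * (d : ℝ) := by positivity
          linarith
        linarith
      · rcases hor with h | ⟨a, ha, hnef⟩
        · refine Or.inl (h.trans (pow_le_pow_left₀ ?_ hlin r))
          have : 0 ≤ 1 - ε := by linarith
          positivity
        · exact Or.inr ⟨a, ha.trans hlin, hnef⟩
    · -- no large points
      rcases J.eq_empty_or_nonempty with h0 | ⟨i, hi⟩
      · subst h0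
        exact ⟨fun _ => 0, fun u => ⟨0, by simp, fun i hi => absurd hi (notMem_empty i)⟩⟩
      · exfalso
        have h5 := hJ i hi
        rcases hor with h | ⟨a, ha, hnef⟩
        · have h1 : (2 * (m i : ℝ)) ^ r ≤ ((1 - ε) * d) ^ r := by
            refine le_trans ?_ h
            rw [mul_pow]
            refine mul_le_mul_of_nonneg_left ?_ (by positivity)
            exact single_le_sum (f := fun i => (m i : ℝ) ^ r) (fun _ _ => by positivity) hi
          have h2 : |(1 - ε) * (d : ℝ)| = (ε - 1) * d := by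
            rw [abs_mul, abs_of_neg (by linarith), abs_of_pos hd0]
            ring
          have h3 : ((1 - ε) * (d : ℝ)) ^ r ≤ ((ε - 1) * d) ^ r := by
            rw [← h2, ← abs_pow]
            exact le_abs_self _
          have h4 : 2 * (m i : ℝ) ≤ (ε - 1) * d :=
            le_of_pow_le_pow_left₀ (by omega) (by
              have : 0 ≤ ε - 1 := by linarith
              positivity) (h1.trans h3)
          nlinarith
        · have h1 : (0 : ℝ) ≤ a := Nat.cast_nonneg a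
          nlinarith
  obtain ⟨x, hx⟩ := hx
  exact ⟨by omega, fun j hj => Exact.up hr hx (by omega)⟩

/-- The plane: the large points fill less than `36 / 37`. -/
theorem exact36 (F : ℕ) (ε : ℝ) (hε : 0 < ε) : ∃ d₀ : ℕ,
    ∀ (k d : ℕ) (m : Fin k → ℕ) (J : Finset (Fin k)), d₀ ≤ d → (∀ i ∈ J, ε * d ≤ m i) →
    9 ≤ J.card → (∀ S : Finset (Fin k), S.card ≤ 3 → ∑ i ∈ S, m i ≤ d) →
    ∑ i ∈ J, (m i : ℝ) ^ 2 ≤ (36 / 37 - ε) * d ^ 2 →
    F ≤ d ∧ ∀ j, d ≤ j + F → Exact 2 j m J := by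
  classical
  -- the nef class
  set η : ℝ := min (ε / 24) (1 / 2) with hη
  have hηpos : 0 < η := lt_min (by positivity) (by norm_num)
  have hηε : η ≤ ε / 24 := min_le_left _ _
  obtain ⟨d₀, hd₀⟩ := exact_of_nef η hηpos F
  obtain ⟨d₁, hd₁⟩ := exists_nat_ge (24 / ε)
  refine ⟨d₀ + d₁ + 1, fun k d m J hd hJ h9 hstd hsq => ?_⟩
  · have hd0 : (0 : ℝ) < d := by exact_mod_cast (by omega : 0 < d)
    have hdd : (24 / ε : ℝ) ≤ d := hd₁.trans (by exact_mod_cast (by omega : d₁ ≤ d))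
    rw [div_le_iff₀ hε] at hdd
    -- `ε ≤ 1`
    have hε1 : ε ≤ 36 / 37 := by
      by_contra hcon
      push Not at hcon
      have h1 : (0 : ℝ) ≤ ∑ i ∈ J, (m i : ℝ) ^ 2 := sum_nonneg fun _ _ => sq_nonneg _
      have h2 : (36 / 37 - ε) * (d : ℝ) ^ 2 < 0 := by
        have : (0 : ℝ) < (d : ℝ) ^ 2 := by positivity
        nlinarith
      linarith
    set a := ⌊(1 - η) * (d : ℝ)⌋₊ with ha
    have hη1 : 0 ≤ 1 - η := by
      have := min_le_right (ε / 24) (1 / 2 : ℝ)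
      linarith
    have ha1 : (a : ℝ) ≤ (1 - η) * d := Nat.floor_le (by positivity)
    have ha2 : (1 - η) * (d : ℝ) < a + 1 := Nat.lt_floor_add_one _
    set y := ⌈ε * (d : ℝ)⌉₊ with hy
    have hy1 : ε * (d : ℝ) ≤ y := Nat.le_ceil _
    refine hd₀ k d a m J (by omega) (fun i hi => ?_) ?_ ha1
    · refine le_trans ?_ (hJ i hi)
      have : η ≤ ε := by linarith
      exact mul_le_mul_of_nonneg_right this hd0.le
    · refine nef_num36 hε (J := J) (by omega) (d := d) (y := y) (fun i hi => ?_)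
        (fun S _ hS => hstd S hS.le) hsq ?_ ?_
      · exact Nat.ceil_le.2 (hJ i hi)
      · have h1 : (12 : ℝ) * d ≤ 12 * a + y := by nlinarith
        exact_mod_cast h1
      · nlinarith

/-- The plane: standard form and anticanonically positive large part. -/
theorem exact_anti (F : ℕ) (ε : ℝ) (hε : 0 < ε) : ∃ d₀ : ℕ,
    ∀ (k d : ℕ) (m : Fin k → ℕ) (J : Finset (Fin k)), d₀ ≤ d → (∀ i ∈ J, ε * d ≤ m i) →
    9 ≤ J.card → (∀ S : Finset (Fin k), S.card ≤ 3 → ∑ i ∈ S, m i ≤ d) →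
    ∑ i ∈ J, (m i : ℝ) ≤ (3 - ε) * d →
    F ≤ d ∧ ∀ j, d ≤ j + F → Exact 2 j m J := by
  classical
  obtain ⟨η₁, hη₁, d₁, hd₁⟩ := nef_anti ε hε
  set η : ℝ := min (η₁ / 2) (min ε (1 / 2)) with hη
  have hηpos : 0 < η := lt_min (by positivity) (lt_min hε (by norm_num))
  have hη1 : η ≤ η₁ / 2 := min_le_left _ _
  have hη2 : η ≤ ε := (min_le_right _ _).trans (min_le_left _ _)
  have hη3 : η ≤ 1 / 2 := (min_le_right _ _).trans (min_le_right _ _)
  obtain ⟨d₀, hd₀⟩ := exact_of_nef η hηpos F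
  obtain ⟨d₂, hd₂⟩ := exists_nat_ge (2 / η₁)
  refine ⟨d₀ + d₁ + d₂ + 1, fun k d m J hd hJ h9 hstd hsum => ?_⟩
  · have hd0 : (0 : ℝ) < d := by exact_mod_cast (by omega : 0 < d)
    have hdd : (2 / η₁ : ℝ) ≤ d := hd₂.trans (by exact_mod_cast (by omega : d₂ ≤ d))
    rw [div_le_iff₀ hη₁] at hdd
    set a := ⌊(1 - η) * (d : ℝ)⌋₊ with ha
    have ha1 : (a : ℝ) ≤ (1 - η) * d := Nat.floor_le (mul_nonneg (by linarith) hd0.le)
    have ha2 : (1 - η) * (d : ℝ) < a + 1 := Nat.lt_floor_add_one _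
    refine hd₀ k d a m J (by omega) (fun i hi => ?_) ?_ ha1
    · exact (mul_le_mul_of_nonneg_right hη2 hd0.le).trans (hJ i hi)
    · refine hd₁ k d a m J (by omega) h9 hJ (fun S _ hS => hstd S hS.le) hsum ?_
      nlinarith

end Pool.Agent.H74.SC
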