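import Pool.Agent.H74.SC.NefS
import Pool.Agent.H18.Sq.Fin8

/-!
# Plane systems of large virtual dimension with isolated singularities at the base points
-/

namespace Pool.Agent.H74.SC

open Finset Pool.Agent.H18.Fat Pool.Agent.H18.Iso Pool.Agent.H18.Pr Pool.Agent.H18.Ub
  Pool.Agent.H18.Cub Pool.Agent.H18.Sq

/-- The squares and the virtual number. -/
theorem sum_virt {k : ℕ} (d : ℕ) (m : Fin k → ℕ) :
    ∑ i, (m i : ℝ) ^ 2 + 2 * (Pool.Agent.H18.Sq.virt d m : ℝ) ≤ (d : ℝ) ^ 2 + 3 * d + 2 := by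
  have h1 := choose_two (d + 2)
  have h2 : ∀ i, (m i : ℤ) ^ 2 ≤ 2 * ((m i + 2 - 1).choose 2 : ℤ) := fun i => by
    have h3 := choose_two (m i + 1)
    have h4 : m i + 2 - 1 = m i + 1 := by omega
    rw [h4, h3]
    push_cast
    have : (0 : ℤ) ≤ m i := Int.natCast_nonneg _
    nlinarith
  have h3 : ∑ i, (m i : ℤ) ^ 2 ≤ 2 * ∑ i, ((m i + 2 - 1).choose 2 : ℤ) := by
    rw [mul_sum]
    exact sum_le_sum fun i _ => h2 i
  have h4 : ∑ i, (m i : ℤ) ^ 2 + 2 * Pool.Agent.H18.Sq.virt d m ≤ (d : ℤ) ^ 2 + 3 * d + 2 := by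
    unfold Pool.Agent.H18.Sq.virt
    push_cast at h1
    nlinarith
  exact_mod_cast h4

open scoped Classical in
/-- Plane systems of large virtual dimension with isolated singularities at the base points are non-special,
or the large multiplicities of a reduced system have a large sum and fill most of the plane. -/
theorem iso_struct (δ : ℝ) (hδ : 0 < δ) : ∃ (η : ℝ) (d₀ : ℕ), 0 < η ∧
    ∀ (k d : ℕ) (m : Fin k → ℕ), 3 ≤ k → d₀ ≤ d →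
    δ * d ^ 2 ≤ (Pool.Agent.H18.Sq.virt d m : ℝ) →
    (ForGeneralPoints 2 k fun p => ∃ F ∈ fatForms 2 d p m, ∀ i, IsolatedAt F (p i)) →
    (ForGeneralPoints 2 k fun p => ImposesMaximalConditions 2 d p m) ∨
    ∃ (d' : ℕ) (m' : Fin k → ℕ), Cremona 2 d m d' m' ∧ d' ≤ d ∧ (∀ i, m' i ≤ m i) ∧
      (∀ S : Finset (Fin k), S.card ≤ 3 → ∑ i ∈ S, m' i ≤ d') ∧
      Pool.Agent.H18.Sq.virt d' m' = Pool.Agent.H18.Sq.virt d m ∧
      10 ≤ (univ.filter (fun i : Fin k => η * d' ≤ (m' i : ℝ))).card ∧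
      (36 / 37 - δ) * (d' : ℝ) ^ 2 <
        ∑ i ∈ univ.filter (fun i : Fin k => η * d' ≤ (m' i : ℝ)), (m' i : ℝ) ^ 2 ∧
      (3 - δ) * (d' : ℝ) < ∑ i ∈ univ.filter (fun i : Fin k => η * d' ≤ (m' i : ℝ)), (m' i : ℝ) := by
  classical
  obtain ⟨δ', hδ'⟩ : ∃ δ' : ℝ, δ' = min δ 1 := ⟨_, rfl⟩
  have hδ0 : 0 < δ' := by
    rw [hδ']
    exact lt_min hδ one_pos
  have hδδ : δ' ≤ δ := by
    rw [hδ']
    exact min_le_left _ _
  have hδ1 : δ' ≤ 1 := by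
    rw [hδ']
    exact min_le_right _ _
  obtain ⟨η, d₁, hη, hd₁⟩ := std_bigJ δ' hδ0
  obtain ⟨d₂, hd₂⟩ := exists_nat_ge (5 / δ')
  obtain ⟨d₃, hd₃⟩ := exists_nat_ge ((d₁ + 2) / δ')
  refine ⟨η, d₂ + d₃ + 1, hη, fun k d m hk hd hv hiso => ?_⟩
  have hdd : (5 : ℝ) ≤ δ' * d := by
    have h1 : (5 / δ' : ℝ) ≤ d := hd₂.trans (by exact_mod_cast (by omega : d₂ ≤ d))
    rw [div_le_iff₀ hδ0] at h1
    linarith
  have hdd3 : (d₁ : ℝ) + 2 ≤ δ' * d := by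
    have h1 : (((d₁ : ℝ) + 2) / δ' : ℝ) ≤ d := hd₃.trans (by exact_mod_cast (by omega : d₃ ≤ d))
    rw [div_le_iff₀ hδ0] at h1
    linarith
  have hd1 : (1 : ℝ) ≤ d := by exact_mod_cast (by omega : 1 ≤ d)
  obtain ⟨d', m', hcr, hdd', hle, hstd⟩ :=
    exists_standard hk d m (ne_zero_of_isolated (by omega) hiso)
  have hvv := virt_eq_of_isolated hcr hiso
  rw [← hvv] at hv
  have hd'0 : (0 : ℝ) ≤ d' := Nat.cast_nonneg _
  have hd'd : (d' : ℝ) ≤ d := by exact_mod_cast hdd'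
  -- the virtual number
  have hsum := sum_virt d' m'
  have h0 : (0 : ℝ) ≤ ∑ i, (m' i : ℝ) ^ 2 := sum_nonneg fun _ _ => sq_nonneg _
  have hsq : (d' : ℝ) ^ 2 ≤ (d : ℝ) ^ 2 := pow_le_pow_left₀ hd'0 hd'd 2
  have hδd : 5 * (d : ℝ) ≤ δ' * d ^ 2 := by nlinarith
  have hδδd : δ' * (d : ℝ) ^ 2 ≤ δ * d ^ 2 := mul_le_mul_of_nonneg_right hδδ (sq_nonneg _)
  have hbig : ∑ i, (m' i : ℝ) ^ 2 ≤ (1 - δ') * (d' : ℝ) ^ 2 := by
    have h1 : (0 : ℝ) ≤ δ' * ((d : ℝ) ^ 2 - d' ^ 2) := mul_nonneg hδ0.le (by linarith)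
    nlinarith
  have hd'1 : d₁ ≤ d' := by
    by_contra hcon
    push Not at hcon
    have h1 : (d' : ℝ) + 2 ≤ δ' * d := by
      have : (d' : ℝ) ≤ d₁ := by exact_mod_cast hcon.le
      linarith
    have h2 : ((d' : ℝ) + 2) ^ 2 ≤ (δ' * d) ^ 2 := pow_le_pow_left₀ (by positivity) h1 2
    have h3 : (δ' * (d : ℝ)) ^ 2 ≤ δ' * d ^ 2 := by
      rw [mul_pow]
      exact mul_le_mul_of_nonneg_right (by nlinarith) (sq_nonneg _)
    have h4 : (0 : ℝ) < δ' * (d : ℝ) ^ 2 := by positivity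
    nlinarith
  by_cases hA : ∑ i ∈ univ.filter (fun i : Fin k => η * d' ≤ (m' i : ℝ)), (m' i : ℝ) ^ 2 ≤
        (36 / 37 - δ') * (d' : ℝ) ^ 2 ∨
      ∑ i ∈ univ.filter (fun i : Fin k => η * d' ≤ (m' i : ℝ)), (m' i : ℝ) ≤ (3 - δ') * d'
  · exact Or.inl (maximal_of_cremona hcr hiso (hd₁ k d' m' hd'1 hstd hbig hA))
  · right
    rw [not_or] at hA
    obtain ⟨hA1, hA2⟩ := hA
    push Not at hA1 hA2
    have hcard : 10 ≤ (univ.filter (fun i : Fin k => η * d' ≤ (m' i : ℝ))).card := by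
      by_contra hcon
      push Not at hcon
      have h9 : ((univ.filter (fun i : Fin k => η * d' ≤ (m' i : ℝ))).card : ℝ) ≤ 9 := by
        exact_mod_cast Nat.le_of_lt_succ hcon
      have h1 := sq_sum_le_card_mul_sum_sq
        (s := univ.filter (fun i : Fin k => η * d' ≤ (m' i : ℝ))) (f := fun i => (m' i : ℝ))
      have h2 : ∑ i ∈ univ.filter (fun i : Fin k => η * d' ≤ (m' i : ℝ)), (m' i : ℝ) ^ 2 ≤
          (1 - δ') * (d' : ℝ) ^ 2 :=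
        (sum_le_sum_of_subset_of_nonneg (subset_univ _) fun _ _ _ => sq_nonneg _).trans hbig
      have h3 : ((univ.filter (fun i : Fin k => η * d' ≤ (m' i : ℝ))).card : ℝ) *
          ∑ i ∈ univ.filter (fun i : Fin k => η * d' ≤ (m' i : ℝ)), (m' i : ℝ) ^ 2 ≤
          9 * ((1 - δ') * (d' : ℝ) ^ 2) :=
        mul_le_mul h9 h2 (sum_nonneg fun _ _ => sq_nonneg _) (by norm_num)
      have h4 : (0 : ℝ) ≤ (3 - δ') * d' := by
        have : (0 : ℝ) ≤ 3 - δ' := by linarith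
        positivity
      have h5 : ((3 - δ') * (d' : ℝ)) ^ 2 <
          (∑ i ∈ univ.filter (fun i : Fin k => η * d' ≤ (m' i : ℝ)), (m' i : ℝ)) ^ 2 :=
        pow_lt_pow_left₀ hA2 h4 two_ne_zero
      have h6 : (0 : ℝ) ≤ (3 * δ' + δ' ^ 2) * (d' : ℝ) ^ 2 := by positivity
      nlinarith
    refine ⟨d', m', hcr, hdd', hle, hstd, hvv, hcard, lt_of_le_of_lt ?_ hA1,
      lt_of_le_of_lt ?_ hA2⟩
    · exact mul_le_mul_of_nonneg_right (by linarith) (sq_nonneg _)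
    · exact mul_le_mul_of_nonneg_right (by linarith) hd'0

/-- Plane systems of large virtual dimension. -/
theorem iso_big (δ : ℝ) (hδ : 0 < δ) : ∃ d₀ : ℕ, ∀ (k d : ℕ) (m : Fin k → ℕ), 3 ≤ k → d₀ ≤ d →
    (1 / 74 + δ) * d ^ 2 ≤ (Pool.Agent.H18.Sq.virt d m : ℝ) →
    (ForGeneralPoints 2 k fun p => ∃ F ∈ fatForms 2 d p m, ∀ i, IsolatedAt F (p i)) →
    ForGeneralPoints 2 k fun p => ImposesMaximalConditions 2 d p m := by
  classical
  obtain ⟨η, d₁, hη, hd₁⟩ := iso_struct (min δ (1 / 74)) (lt_min hδ (by norm_num))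
  obtain ⟨d₂, hd₂⟩ := exists_nat_ge (8 / δ)
  refine ⟨d₁ + d₂ + 1, fun k d m hk hd hv hiso => ?_⟩
  have hdd : (8 : ℝ) ≤ δ * d := by
    have h1 : (8 / δ : ℝ) ≤ d := hd₂.trans (by exact_mod_cast (by omega : d₂ ≤ d))
    rw [div_le_iff₀ hδ] at h1
    linarith
  have hd1 : (1 : ℝ) ≤ d := by exact_mod_cast (by omega : 1 ≤ d)
  obtain ⟨δ', hδ'⟩ : ∃ δ' : ℝ, δ' = min δ (1 / 74) := ⟨_, rfl⟩
  rw [← hδ'] at hd₁
  have hδδ : δ' ≤ δ := by
    rw [hδ']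
    exact min_le_left _ _
  have hδ1 : δ' ≤ 1 / 74 := by
    rw [hδ']
    exact min_le_right _ _
  have hδ0 : 0 < δ' := by
    rw [hδ']
    exact lt_min hδ (by norm_num)
  rcases hd₁ k d m hk (by omega) (by
    refine le_trans ?_ hv
    exact mul_le_mul_of_nonneg_right (by linarith) (sq_nonneg _)) hiso with h | ⟨d', m', hcr, h1, h2,
      h3, h4, hc, h5, h6⟩
  · exact h
  · exfalso
    rw [← h4] at hv
    have h7 := sum_virt d' m'
    have hd'0 : (0 : ℝ) ≤ d' := Nat.cast_nonneg _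
    have hd'd : (d' : ℝ) ≤ d := by exact_mod_cast h1
    have hsq : (d' : ℝ) ^ 2 ≤ (d : ℝ) ^ 2 := pow_le_pow_left₀ hd'0 hd'd 2
    have h8 : ∑ i ∈ univ.filter (fun i : Fin k => η * d' ≤ (m' i : ℝ)), (m' i : ℝ) ^ 2 ≤
        ∑ i, (m' i : ℝ) ^ 2 :=
      sum_le_sum_of_subset_of_nonneg (subset_univ _) fun _ _ _ => sq_nonneg _
    have h9 : 8 * (d : ℝ) ≤ δ * d ^ 2 := by nlinarith
    have h10 : (0 : ℝ) ≤ (1 / 37 + δ') * ((d : ℝ) ^ 2 - d' ^ 2) :=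
      mul_nonneg (by positivity) (by linarith)
    have h11 : δ' * (d : ℝ) ^ 2 ≤ δ * d ^ 2 := mul_le_mul_of_nonneg_right hδδ (sq_nonneg _)
    nlinarith

end Pool.Agent.H74.SC
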