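import Pool.Agent.H74.SC.Ex
import Pool.Agent.H74.SC.PlaneS
import Pool.Agent.H74.BP.Nef

/-!
# Nef classes of large self-intersection
-/

namespace Pool.Agent.H74.SC

open Finset Pool.Agent.H18.Cub Pool.Agent.H18.Pr Pool.Agent.H18.Fat Pool.Agent.H18.Ub
  Pool.Agent.H18.Nef Pool.Agent.H74.BP

variable {n : ℕ}

/-- Cremona transformations preserve the self-intersection. -/
theorem sq_crm {d s : ℕ} {m : Fin n → ℕ} {a b c : Fin n} (hab : a ≠ b) (hac : a ≠ c)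
    (hbc : b ≠ c) (hμ : m a + m b + m c + s = 2 * d)
    (hma : m b + m c ≤ d) (hmb : m a + m c ≤ d) (hmc : m a + m b ≤ d) :
    s ^ 2 + ∑ i, m i ^ 2 = d ^ 2 + ∑ i, crm d m a b c s i ^ 2 := by
  have h2 : ∀ x, (x = a ∨ x = b ∨ x = c) → crm d m a b c s x + d = s + m x := by
    intro x hx
    have : crm d m a b c s x = s + m x - d := if_pos hx
    rw [this]
    rcases hx with rfl | rfl | rfl <;> omega
  rw [sum_three (fun i => m i ^ 2) hab hac hbc,
    sum_three (fun i => crm d m a b c s i ^ 2) hab hac hbc]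
  have h3 : ∑ i ∈ univ \ {a, b, c}, crm d m a b c s i ^ 2 = ∑ i ∈ univ \ {a, b, c}, m i ^ 2 :=
    sum_congr rfl fun i hi => by rw [crm_out hi]
  rw [h3]
  have ha := h2 a (Or.inl rfl)
  have hb := h2 b (Or.inr (Or.inl rfl))
  have hc := h2 c (Or.inr (Or.inr rfl))
  generalize ∑ i ∈ univ \ {a, b, c}, m i ^ 2 = R
  generalize crm d m a b c s a = x at ha ⊢
  generalize crm d m a b c s b = y at hb ⊢
  generalize crm d m a b c s c = z at hc ⊢
  zify at ha hb hc hμ ⊢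
  have f1 : (s : ℤ) = 2 * d - m a - m b - m c := by linarith
  have f2 : (x : ℤ) = s + m a - d := by linarith
  have f3 : (y : ℤ) = s + m b - d := by linarith
  have f4 : (z : ℤ) = s + m c - d := by linarith
  rw [f2, f3, f4, f1]
  ring

/-- One step of the Cremona reduction. -/
theorem cremona_step {d s d' : ℕ} {m m' : Fin n → ℕ} {a b c : Fin n} (hab : a ≠ b) (hac : a ≠ c)
    (hbc : b ≠ c) (hμ : m a + m b + m c + s = 2 * d)
    (hma : m b + m c ≤ d) (hmb : m a + m c ≤ d)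
    (h1 : Cremona 2 s (crm d m a b c s) d' m') : Cremona 2 d m d' m' := by
  obtain ⟨J3, e0, e1, e2, hJ3⟩ := emb3 hab hac hbc
  refine Cremona.step J3 (fun l => ?_) ?_ (fun l => ?_) (fun i hi => ?_) h1
  · have h6 : ∀ x, (x = a ∨ x = b ∨ x = c) → m x ≤ d := by
      rintro x (rfl | rfl | rfl) <;> omega
    apply h6
    by_contra hcon
    exact (hJ3 (J3 l)).2 hcon l rfl
  · rw [Fin.sum_univ_three, e0, e1, e2]
    omega
  · refine if_pos ?_
    by_contra hcon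
    exact (hJ3 (J3 l)).2 hcon l rfl
  · exact if_neg ((hJ3 i).1 hi)

/-- Reduction of nef classes to standard form. -/
theorem nef_reduce : ∀ (d : ℕ) (m : Fin n → ℕ), NefC d m →
    ∃ (d' : ℕ) (m' : Fin n → ℕ), Cremona 2 d m d' m' ∧ NefC d' m' ∧
      (∀ S : Finset (Fin n), S.card ≤ 3 → ∑ i ∈ S, m' i ≤ d') ∧ virt d' m' = virt d m ∧
      d' ^ 2 + ∑ i, m i ^ 2 = d ^ 2 + ∑ i, m' i ^ 2 ∧ d' ≤ d ∧
      ∑ i, m' i + 3 * d = ∑ i, m i + 3 * d' := by
  intro d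
  induction d using Nat.strong_induction_on with
  | _ d ih =>
    intro m h
    by_cases hstd : ∀ S : Finset (Fin n), S.card ≤ 3 → ∑ i ∈ S, m i ≤ d
    · exact ⟨d, m, Cremona.refl d m, h, hstd, rfl, rfl, le_rfl, rfl⟩
    · push Not at hstd
      obtain ⟨S, hS3, hlt⟩ := hstd
      have hcard : S.card = 3 := by
        by_contra hne
        have h012 : S.card = 0 ∨ S.card = 1 ∨ S.card = 2 := by omega
        rcases h012 with h0 | h1 | h2
        · rw [card_eq_zero] at h0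
          rw [h0, sum_empty] at hlt
          omega
        · obtain ⟨x, rfl⟩ := card_eq_one.1 h1
          rw [sum_singleton] at hlt
          have := h.one x
          omega
        · obtain ⟨x, y, hxy, rfl⟩ := card_eq_two.1 h2
          rw [sum_pair hxy] at hlt
          have := h.two hxy
          omega
      obtain ⟨a, b, c, hab, hac, hbc, rfl⟩ := card_eq_three.1 hcard
      have hma := h.two hbc
      have hmb := h.two hac
      have hmc := h.two hab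
      have hsum : ∑ i ∈ ({a, b, c} : Finset (Fin n)), m i = m a + m b + m c := by
        rw [sum_insert (by simp [hab, hac]), sum_insert (by simp [hbc]), sum_singleton,
          add_assoc]
      rw [hsum] at hlt
      obtain ⟨s, hs⟩ : ∃ s, s = 2 * d - (m a + m b + m c) := ⟨_, rfl⟩
      have hμ : m a + m b + m c + s = 2 * d := by omega
      obtain ⟨d', m', h1, h2, h3, h4, h5, h6, h7⟩ := ih s (by omega) (crm d m a b c s)
        (NefC.step h hab hac hbc hμ)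
      have hsq := sq_crm hab hac hbc hμ hma hmb hmc
      have hsu := sum_J_crm hab hac hbc hμ hma hmb hmc univ (mem_univ a) (mem_univ b) (mem_univ c)
      exact ⟨d', m', cremona_step hab hac hbc hμ hma hmb h1, h2, h3,
        h4.trans (virt_crm hab hac hbc hμ hma hmb hmc), by omega, by omega, by omega⟩

/-- Non-special classes and Cremona reductions without loss. -/
theorem nonspecial_of_reduce {d d' : ℕ} {m m' : Fin n → ℕ} (h1 : Cremona 2 d m d' m')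
    (h4 : virt d' m' = virt d m)
    (h7 : ForGeneralPoints 2 n fun p => ImposesMaximalConditions 2 d' p m') :
    ForGeneralPoints 2 n fun p => ImposesMaximalConditions 2 d p m := by
  refine (cremona_final (by norm_num) h1 h7).mono fun p hp => ?_
  have h8 := hp.2
  by_contra hcon
  have h9 := (h8.1 hcon).2
  have h10 : virt d' m' = ((d' + 2).choose 2 : ℤ) - ∑ i, ((m' i + 2 - 1).choose 2 : ℤ) := rfl
  have h11 : virt d m = ((d + 2).choose 2 : ℤ) - ∑ i, ((m i + 2 - 1).choose 2 : ℤ) := rfl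
  rw [← h10, ← h11, h4] at h9
  exact lt_irrefl _ h9

/-- Classes of large self-intersection are off the window. -/
theorem off_of_sq {δ η : ℝ} (hδ : 0 < δ) (hδ1 : δ ≤ 1) (hη0 : 0 < η) (hη : η ≤ δ / 16) {M D : ℕ}
    (hM : 2 / δ ≤ M) {n d : ℕ} (m : Fin n → ℕ) (J : Finset (Fin n))
    (hdD : (D : ℝ) + M + 1 ≤ η * d) (hJ1 : ∀ i ∈ J, η * d ≤ (m i : ℝ))
    (hJ2 : ∀ i, i ∉ J → (m i : ℝ) < η * d) (hsq : ∑ i, (m i : ℝ) ^ 2 ≤ (1 - δ) * d ^ 2) :
    OffS 2 D M d m J := by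
  classical
  have hM0 : (0 : ℝ) < M := lt_of_lt_of_le (by positivity) hM
  have hD0 : (0 : ℝ) ≤ D := Nat.cast_nonneg D
  have hd0 : (0 : ℝ) < d := by
    by_contra hcon
    push Not at hcon
    have : η * (d : ℝ) ≤ 0 := mul_nonpos_of_nonneg_of_nonpos hη0.le hcon
    linarith
  have hsum0 : (0 : ℝ) ≤ ∑ i, (m i : ℝ) ^ 2 := sum_nonneg fun i _ => sq_nonneg _
  intro i hi hMi
  left
  have hs := hJ2 i hi
  have hηd : η * d ≤ d / 16 := by nlinarith
  have hsD : D + m i ≤ d := by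
    have h1 : (D : ℝ) + m i ≤ d := by linarith
    exact_mod_cast h1
  refine ⟨hsD, ?_⟩
  have h1 : ∀ l ∈ univ.filter (fun l => l ∈ J ∨ m i ≤ m l),
      (((m l + 2 - 1).choose 2 : ℕ) : ℝ) ≤ (1 + 1 / M) * (m l : ℝ) ^ 2 / 2 := by
    intro l hl
    have hMl : (M : ℝ) ≤ m l := by
      rcases (mem_filter.1 hl).2 with h | h
      · have := hJ1 l h
        linarith
      · exact_mod_cast (hMi.le.trans h)
    have h2 : (((m l + 2 - 1).choose 2 : ℕ) : ℝ) = (m l : ℝ) * (m l + 1) / 2 := by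
      have h3 := choose_two_cast (m l)
      have h4 : (2 * ((m l + 1).choose 2 : ℕ) : ℝ) = (m l : ℝ) * (m l + 1) := by exact_mod_cast h3
      have h5 : m l + 2 - 1 = m l + 1 := by omega
      rw [h5]
      linarith
    rw [h2]
    have h3 : (m l : ℝ) ≤ 1 / M * (m l : ℝ) ^ 2 := by
      rw [div_mul_eq_mul_div, one_mul, le_div_iff₀ hM0, sq]
      exact mul_le_mul_of_nonneg_left hMl (Nat.cast_nonneg _)
    nlinarith
  have h2 : ((∑ l ∈ univ.filter (fun l => l ∈ J ∨ m i ≤ m l), (m l + 2 - 1).choose 2 : ℕ) : ℝ) ≤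
      (1 + 1 / M) * (∑ l, (m l : ℝ) ^ 2) / 2 := by
    push_cast
    refine (sum_le_sum h1).trans ?_
    rw [← sum_div, ← mul_sum]
    have h3 : ∑ l ∈ univ.filter (fun l => l ∈ J ∨ m i ≤ m l), (m l : ℝ) ^ 2 ≤
        ∑ l, (m l : ℝ) ^ 2 := sum_le_sum_of_subset_of_nonneg (filter_subset _ _)
          fun _ _ _ => sq_nonneg _
    have h4 : (0 : ℝ) ≤ 1 + 1 / M := by positivity
    have := mul_le_mul_of_nonneg_left h3 h4
    linarith
  have h3 : (((d - D - m i + 2).choose 2 : ℕ) : ℝ) =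
      ((d : ℝ) - D - m i + 1) * ((d : ℝ) - D - m i + 2) / 2 := by
    have h4 := choose_two_cast (d - D - m i + 1)
    have h5 : (2 * ((d - D - m i + 1 + 1).choose 2 : ℕ) : ℝ) =
        ((d - D - m i + 1 : ℕ) : ℝ) * (((d - D - m i + 1 : ℕ) : ℝ) + 1) := by exact_mod_cast h4
    have h6 : ((d - D - m i : ℕ) : ℝ) = (d : ℝ) - D - m i := by
      rw [Nat.cast_sub (by omega), Nat.cast_sub (by omega)]
    push_cast at h5
    rw [h6] at h5
    linarith
  have h4 : (1 - 2 * η) * (d : ℝ) ≤ (d : ℝ) - D - m i := by nlinarith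
  have h5 : (0 : ℝ) ≤ (1 - 2 * η) * d := by
    have : (0 : ℝ) ≤ 1 - 2 * η := by linarith
    positivity
  have h6 : ((1 - 2 * η) * (d : ℝ)) ^ 2 ≤ ((d : ℝ) - D - m i) ^ 2 := pow_le_pow_left₀ h5 h4 2
  have h7 : (1 - δ / 2) * (d : ℝ) ^ 2 ≤ ((1 - 2 * η) * (d : ℝ)) ^ 2 := by
    rw [mul_pow]
    refine mul_le_mul_of_nonneg_right ?_ (sq_nonneg _)
    nlinarith
  have h8 : (1 + 1 / M) * (∑ l, (m l : ℝ) ^ 2) ≤ (1 - δ / 2) * (d : ℝ) ^ 2 := by
    have h9 : 1 / (M : ℝ) ≤ δ / 2 := by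
      rw [div_le_iff₀ hM0]
      rw [div_le_iff₀ hδ] at hM
      linarith
    have h10 : ∑ l, (m l : ℝ) ^ 2 ≤ (d : ℝ) ^ 2 := by
      refine hsq.trans ?_
      have : (1 - δ) ≤ (1 : ℝ) := by linarith
      nlinarith [sq_nonneg (d : ℝ)]
    have h11 : 1 / (M : ℝ) * ∑ l, (m l : ℝ) ^ 2 ≤ δ / 2 * (d : ℝ) ^ 2 :=
      mul_le_mul h9 h10 hsum0 (by linarith)
    nlinarith
  have h9 : ((∑ l ∈ univ.filter (fun l => l ∈ J ∨ m i ≤ m l), (m l + 2 - 1).choose 2 : ℕ) : ℝ) ≤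
      (((d - D - m i + 2).choose 2 : ℕ) : ℝ) := by
    rw [h3]
    refine h2.trans ?_
    nlinarith
  exact_mod_cast h9

open scoped Classical in
/-- Classes in standard form of large self-intersection: the points with large multiplicities fill at most
`36 / 37` of the plane, or are positive on the anticanonical class. -/
theorem std_bigJ (ε : ℝ) (hε : 0 < ε) : ∃ (η : ℝ) (d₀ : ℕ), 0 < η ∧ ∀ (n d : ℕ) (m : Fin n → ℕ),
    d₀ ≤ d → (∀ S : Finset (Fin n), S.card ≤ 3 → ∑ i ∈ S, m i ≤ d) →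
    ∑ i, (m i : ℝ) ^ 2 ≤ (1 - ε) * d ^ 2 →
    (∑ i ∈ univ.filter (fun i : Fin n => η * d ≤ (m i : ℝ)), (m i : ℝ) ^ 2 ≤
        (36 / 37 - ε) * d ^ 2 ∨
      ∑ i ∈ univ.filter (fun i : Fin n => η * d ≤ (m i : ℝ)), (m i : ℝ) ≤ (3 - ε) * d) →
    ForGeneralPoints 2 n fun p => ImposesMaximalConditions 2 d p m := by
  classical
  obtain ⟨K₁, E₁, h₁⟩ := plane_TS
  obtain ⟨δ, hδ⟩ : ∃ δ : ℝ, δ = min ε 1 := ⟨_, rfl⟩
  have hδ0 : 0 < δ := by
    rw [hδ]
    exact lt_min hε one_pos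
  have hδε : δ ≤ ε := by
    rw [hδ]
    exact min_le_left _ _
  have hδ1 : δ ≤ 1 := by
    rw [hδ]
    exact min_le_right _ _
  obtain ⟨M, hM⟩ := exists_nat_ge (2 / δ)
  have hM0 : (0 : ℝ) < M := lt_of_lt_of_le (by positivity) hM
  have hM1 : 1 ≤ M := by exact_mod_cast hM0
  obtain ⟨η, hη⟩ : ∃ η : ℝ, η = δ / 16 := ⟨_, rfl⟩
  have hη0 : 0 < η := by
    rw [hη]
    positivity
  set F := 300 * 2 * M ^ (2 + 4) with hF
  set D := K₁ * M ^ E₁ + F with hD
  obtain ⟨d₂, hd₂⟩ := exact36 F η hη0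
  obtain ⟨d₃, hd₃⟩ := exact_anti F η hη0
  obtain ⟨d₁, hd₁⟩ := exists_nat_ge ((D + M + 1) / η)
  refine ⟨η, d₁ + d₂ + d₃ + D, hη0, fun n d m hd hstd hall hor => ?_⟩
  have hdD : (D : ℝ) + M + 1 ≤ η * d := by
    have h1 : (((D : ℝ) + M + 1) / η) ≤ d := hd₁.trans (by exact_mod_cast (by omega : d₁ ≤ d))
    rw [div_le_iff₀ hη0] at h1
    linarith
  have hd0 : (0 : ℝ) ≤ d := Nat.cast_nonneg d
  set J := univ.filter fun i : Fin n => η * d ≤ (m i : ℝ) with hJ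
  have hJ1 : ∀ i ∈ J, η * d ≤ (m i : ℝ) := fun i hi => (mem_filter.1 hi).2
  have hJ2 : ∀ i, i ∉ J → (m i : ℝ) < η * d := by
    intro i hi
    by_contra hcon
    push Not at hcon
    exact hi (mem_filter.2 ⟨mem_univ i, hcon⟩)
  have hsq : ∑ i, (m i : ℝ) ^ 2 ≤ (1 - δ) * d ^ 2 :=
    hall.trans (mul_le_mul_of_nonneg_right (by linarith) (sq_nonneg _))
  have hoff := off_of_sq hδ0 hδ1 hη0 hη.le hM m J hdD hJ1 hJ2 hsq
  have hoffF : OffS 2 F M d m J := hoff.mono (by omega) le_rfl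
  have hoffK : OffS 2 (K₁ * M ^ E₁) M d m J := hoff.mono (by omega) le_rfl
  rcases Nat.lt_or_ge J.card 9 with h9 | h9
  · exact h₁ M hM1 n d m J (by omega) hstd (by omega) hoffK
  · rcases hor with hsq | hsum
    · have hsqJ : ∑ i ∈ J, (m i : ℝ) ^ 2 ≤ (36 / 37 - η) * d ^ 2 :=
        hsq.trans (mul_le_mul_of_nonneg_right (by linarith) (sq_nonneg _))
      obtain ⟨h2, h3⟩ := hd₂ n d m J (by omega) hJ1 h9 hstd hsqJ
      exact of_exactS 2 M le_rfl hM1 n d m J h2 h3 hoffF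
    · have hsumJ : ∑ i ∈ J, (m i : ℝ) ≤ (3 - η) * d :=
        hsum.trans (mul_le_mul_of_nonneg_right (by linarith) hd0)
      obtain ⟨h2, h3⟩ := hd₃ n d m J (by omega) hJ1 h9 hstd hsumJ
      exact of_exactS 2 M le_rfl hM1 n d m J h2 h3 hoffF

/-- Classes in standard form of large self-intersection: at most `36 / 37` of the plane is filled, or the
class is positive on the anticanonical class. -/
theorem std_big (ε : ℝ) (hε : 0 < ε) : ∃ d₀ : ℕ, ∀ (n d : ℕ) (m : Fin n → ℕ), d₀ ≤ d →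
    (∀ S : Finset (Fin n), S.card ≤ 3 → ∑ i ∈ S, m i ≤ d) →
    (∑ i, (m i : ℝ) ^ 2 ≤ (36 / 37 - ε) * d ^ 2 ∨
      ∑ i, (m i : ℝ) ^ 2 ≤ (1 - ε) * d ^ 2 ∧ ∑ i, (m i : ℝ) ≤ (3 - ε) * d) →
    ForGeneralPoints 2 n fun p => ImposesMaximalConditions 2 d p m := by
  classical
  obtain ⟨η, d₀, hη, hd₀⟩ := std_bigJ ε hε
  refine ⟨d₀, fun n d m hd hstd hor => ?_⟩
  rcases hor with h | ⟨h, hs⟩
  · refine hd₀ n d m hd hstd (h.trans (mul_le_mul_of_nonneg_right (by linarith) (sq_nonneg _)))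
      (Or.inl (le_trans ?_ h))
    exact sum_le_sum_of_subset_of_nonneg (subset_univ _) fun _ _ _ => sq_nonneg _
  · refine hd₀ n d m hd hstd h (Or.inr (le_trans ?_ hs))
    exact sum_le_sum_of_subset_of_nonneg (subset_univ _) fun _ _ _ => Nat.cast_nonneg _

/-- Nef classes of large self-intersection are non-special. -/
theorem nef_big (ε : ℝ) (hε : 0 < ε) : ∃ d₀ : ℕ, ∀ (n d : ℕ) (m : Fin n → ℕ), d₀ ≤ d →
    NefC d m → (∑ i, (m i : ℝ) ^ 2 ≤ (36 / 37 - ε) * d ^ 2 ∨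
      ∑ i, (m i : ℝ) ^ 2 ≤ (1 - ε) * d ^ 2 ∧ ∑ i, (m i : ℝ) ≤ (3 - ε) * d) →
    ForGeneralPoints 2 n fun p => ImposesMaximalConditions 2 d p m := by
  obtain ⟨d₀, hd₀⟩ := std_big ε hε
  obtain ⟨δ, hδ⟩ : ∃ δ : ℝ, δ = min ε (1 / 37) := ⟨_, rfl⟩
  have hδ0 : 0 < δ := by
    rw [hδ]
    exact lt_min hε (by norm_num)
  have hδε : δ ≤ ε := by
    rw [hδ]
    exact min_le_left _ _
  have hδ1 : δ ≤ 1 / 37 := by
    rw [hδ]
    exact min_le_right _ _
  obtain ⟨d₁, hd₁⟩ := exists_nat_ge (d₀ / δ)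
  refine ⟨d₁, fun n d m hd hnef hor => ?_⟩
  have hdd : (d₀ : ℝ) ≤ δ * d := by
    have h1 : ((d₀ : ℝ) / δ) ≤ d := hd₁.trans (by exact_mod_cast hd)
    rw [div_le_iff₀ hδ0] at h1
    linarith
  obtain ⟨d', m', h1, h2, h3, h4, h5, h6, h7⟩ := nef_reduce d m hnef
  have h5' : (d' : ℝ) ^ 2 + ∑ i, (m i : ℝ) ^ 2 = (d : ℝ) ^ 2 + ∑ i, (m' i : ℝ) ^ 2 := by
    exact_mod_cast h5
  have h7' : (∑ i, (m' i : ℝ)) + 3 * d = (∑ i, (m i : ℝ)) + 3 * d' := by exact_mod_cast h7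
  have h0 : (0 : ℝ) ≤ ∑ i, (m' i : ℝ) ^ 2 := sum_nonneg fun i _ => sq_nonneg _
  have h6' : (d' : ℝ) ≤ d := by exact_mod_cast h6
  have hdd' : (d' : ℝ) ^ 2 ≤ (d : ℝ) ^ 2 := pow_le_pow_left₀ (Nat.cast_nonneg _) h6' 2
  have hd'0 : (0 : ℝ) ≤ d' := Nat.cast_nonneg _
  have hd0 : (0 : ℝ) ≤ d := Nat.cast_nonneg _
  have hδd : (0 : ℝ) ≤ δ * (d : ℝ) ^ 2 := by positivity
  have hbig : δ * (d : ℝ) ^ 2 ≤ (d' : ℝ) ^ 2 := by
    rcases hor with h | ⟨h, -⟩
    · have : ∑ i, (m i : ℝ) ^ 2 ≤ (1 - δ) * d ^ 2 :=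
        h.trans (mul_le_mul_of_nonneg_right (by linarith) (sq_nonneg _))
      linarith
    · have : ∑ i, (m i : ℝ) ^ 2 ≤ (1 - δ) * d ^ 2 :=
        h.trans (mul_le_mul_of_nonneg_right (by linarith) (sq_nonneg _))
      linarith
  have hge : δ * (d : ℝ) ≤ d' := by
    have h8 : (δ * (d : ℝ)) ^ 2 ≤ (d' : ℝ) ^ 2 := by
      rw [mul_pow]
      have : δ ^ 2 * (d : ℝ) ^ 2 ≤ δ * (d : ℝ) ^ 2 :=
        mul_le_mul_of_nonneg_right (by nlinarith) (sq_nonneg _)
      linarith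
    exact (pow_le_pow_iff_left₀ (by positivity) hd'0 two_ne_zero).1 h8
  refine nonspecial_of_reduce h1 h4 (hd₀ n d' m' ?_ h3 ?_)
  · have : (d₀ : ℝ) ≤ d' := hdd.trans hge
    exact_mod_cast this
  · rcases hor with h | ⟨h, hs⟩
    · left
      have : (0 : ℝ) ≤ (1 / 37 + ε) * ((d : ℝ) ^ 2 - d' ^ 2) :=
        mul_nonneg (by positivity) (by linarith)
      nlinarith
    · right
      have h8 : (0 : ℝ) ≤ ε * ((d : ℝ) ^ 2 - d' ^ 2) := mul_nonneg hε.le (by linarith)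
      have h9 : (0 : ℝ) ≤ ε * ((d : ℝ) - d') := mul_nonneg hε.le (by linarith)
      exact ⟨by nlinarith, by nlinarith⟩

/-- The same with the degree with respect to a Cremona image of the class of a line. -/
theorem nef_big_image (ε : ℝ) (hε : 0 < ε) : ∃ d₀ : ℕ, ∀ (n e : ℕ) (k : Fin n → ℕ),
    LineImage e k → ∀ (d x : ℕ) (m : Fin n → ℕ), NefC d m → d₀ ≤ x →
    ∑ i, m i * k i + x = d * e →
    ∑ i, (m i : ℝ) ^ 2 + (1 / 37 + ε) * x ^ 2 ≤ d ^ 2 →
    ForGeneralPoints 2 n fun p => ImposesMaximalConditions 2 d p m := by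
  obtain ⟨d₀, hd₀⟩ := nef_big ε hε
  refine ⟨d₀, fun n e k hF => ?_⟩
  induction hF with
  | line =>
    intro d x m hnef hx hxd hsq
    have h1 : x = d := by
      simp only [mul_zero, sum_const_zero, zero_add, mul_one] at hxd
      exact hxd
    subst h1
    exact hd₀ n x m hx hnef (Or.inl (by linarith))
  | @step e s k a b c _ hab hac hbc hka hkb hkc hs ih =>
    intro d x m hnef hx hxd hsq
    have hma := hnef.two hbc
    have hmb := hnef.two hac
    have hmc := hnef.two hab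
    obtain ⟨t, ht⟩ : ∃ t, t = 2 * d - (m a + m b + m c) := ⟨_, rfl⟩
    have hμ : m a + m b + m c + t = 2 * d := by omega
    have hp1 := pairing hab hac hbc hμ hs hma hmb hmc
    have hp2 := pairing hab hac hbc hs hμ hka hkb hkc
    have hsq1 := sq_crm hab hac hbc hμ hma hmb hmc
    have hsq1' : (t : ℝ) ^ 2 + ∑ i, (m i : ℝ) ^ 2 =
        (d : ℝ) ^ 2 + ∑ i, (crm d m a b c t i : ℝ) ^ 2 := by exact_mod_cast hsq1
    have hxd' : (∑ i, (m i : ℤ) * (crm e k a b c s i : ℤ)) + x = d * s := by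
      have : (∑ i, m i * crm e k a b c s i) + x = d * s := hxd
      exact_mod_cast this
    have hcomm1 : ∑ i, (crm d m a b c t i : ℤ) * (k i : ℤ) = ∑ i, (k i : ℤ) * (crm d m a b c t i : ℤ) :=
      sum_congr rfl fun i _ => mul_comm _ _
    have hcomm2 : ∑ i, (crm e k a b c s i : ℤ) * (m i : ℤ) = ∑ i, (m i : ℤ) * (crm e k a b c s i : ℤ) :=
      sum_congr rfl fun i _ => mul_comm _ _
    have hx1 : (∑ i, crm d m a b c t i * k i) + x = t * e := by
      have : (∑ i, (crm d m a b c t i : ℤ) * (k i : ℤ)) + x = t * e := by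
        rw [hcomm1] at hp1 ⊢
        rw [hcomm2] at hp2
        linarith
      exact_mod_cast this
    refine nonspecial_of_reduce (cremona_step hab hac hbc hμ hma hmb (Cremona.refl _ _))
      (virt_crm hab hac hbc hμ hma hmb hmc) ?_
    exact ih t x (crm d m a b c t) (NefC.step hnef hab hac hbc hμ) hx hx1 (by linarith)

end Pool.Agent.H74.SC
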