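import Pool.Agent.H74.SC.Desc
import Pool.Agent.H74.KV.GenN

/-!
# Off the window, by scales
-/

namespace Pool.Agent.H74.SC

open Finset Pool.Agent.H18.Cub Pool.Agent.H18.Pr Pool.Agent.H18.Fat Pool.Agent.H18.Ub
  Pool.Agent.H18.Nef Pool.Agent.H74.BP Pool.Agent.H74.CT Pool.Agent.H74.KV

/-- No point `i` outside `J` with `M < m_i` such that `J` and the points of multiplicity at least `m_i`
carry about all conditions. -/
def OffS (r D M d : ℕ) {k : ℕ} (m : Fin k → ℕ) (J : Finset (Fin k)) : Prop :=
  ∀ i, i ∉ J → M < m i →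
    (D + m i ≤ d ∧ ∑ l ∈ univ.filter (fun l => l ∈ J ∨ m i ≤ m l), (m l + r - 1).choose r ≤
      (d - D - m i + r).choose r) ∨
    (d + m i - 1 + r).choose r ≤ ∑ l, (m l + r - 1).choose r

theorem OffS.mono {r D D' M M' d k : ℕ} {m : Fin k → ℕ} {J : Finset (Fin k)}
    (h : OffS r D' M' d m J) (hD : D ≤ D') (hM : M' ≤ M) : OffS r D M d m J := by
  intro i hi hMi
  rcases h i hi (by omega) with ⟨h1, h2⟩ | h
  · exact Or.inl ⟨by omega, h2.trans (Nat.choose_le_choose r (by omega))⟩
  · exact Or.inr h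

theorem sum_or {r k : ℕ} (m : Fin k → ℕ) (J : Finset (Fin k)) (x : ℕ) :
    ∑ l ∈ univ.filter (fun l => l ∈ J ∨ x ≤ m l), (m l + r - 1).choose r =
      ∑ l ∈ J, (m l + r - 1).choose r + len r m (above m J x) := by
  classical
  unfold BP.len
  rw [← sum_union (disjoint_above m J x)]
  refine sum_congr ?_ fun i _ => rfl
  ext i
  rw [mem_filter, mem_union, mem_above]
  have := mem_univ i
  tauto

theorem sum_all {r k : ℕ} (m : Fin k → ℕ) (L : Finset (Fin k)) :
    ∑ l, (m l + r - 1).choose r =
      ∑ l ∈ L, (m l + r - 1).choose r + len r m (univ.filter fun i => i ∉ L) := by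
  classical
  unfold BP.len
  rw [← sum_filter_add_sum_filter_not univ (fun i => i ∈ L)]
  congr 1
  refine sum_congr ?_ fun i _ => rfl
  ext i
  simp

/-- The points outside `J` impose maximal conditions, or there are no forms. -/
theorem max_or_zero (r M : ℕ) (hr : 2 ≤ r) (hM : 1 ≤ M) (k d : ℕ) (m : Fin k → ℕ)
    (J : Finset (Fin k)) (h : ℕ → ℕ)
    (hh : ∀ j, h j = generalDim r j fun i => if i ∈ J then m i else 0)
    (hup : ∀ j, d ≤ j → h j ≤ (j + r).choose r - ∑ i ∈ J, (m i + r - 1).choose r)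
    (hyp : 16 * M ^ 2 * (M + r - 1).choose r * ((h d - h (d - 1)) -
        (h (d - 66 * M ^ 3 * (M + r - 1).choose r) -
          h (d - 66 * M ^ 3 * (M + r - 1).choose r - 1))) ≤ h d - h (d - 1) ∨
      300 * r * M ^ (r + 4) ≤ d ∧ (h (d - 300 * r * M ^ (r + 4)) : ℤ) =
        ((d - 300 * r * M ^ (r + 4) + r).choose r : ℤ) -
          ∑ i ∈ J, ((m i + r - 1).choose r : ℤ))
    (hoff : OffS r (300 * r * M ^ (r + 4)) M d m J) :
    BP.Max r d m J ∨ generalDim r d m = 0 := by
  classical
  obtain ⟨s, rfl⟩ : ∃ s, r = s + 2 := ⟨r - 2, by omega⟩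
  set F := 300 * (s + 2) * M ^ (s + 2 + 4) with hF
  -- a good point
  have hgood : ∀ i, F + m i ≤ d → ∑ l ∈ univ.filter (fun l => l ∈ J ∨ m i ≤ m l),
      (m l + (s + 2) - 1).choose (s + 2) ≤ (d - F - m i + (s + 2)).choose (s + 2) →
      ∃ e, e + m i + F ≤ d ∧ len (s + 2) m (above m J (m i)) ≤ h e := by
    intro i hi1 hi2
    refine ⟨d - F - m i, by omega, ?_⟩
    rw [sum_or] at hi2
    have hge := Pool.Agent.H74.CT.dim_ge s (d - F - m i) k m J
    rw [hh]
    omega
  by_cases hall : ∀ i, i ∉ J → M < m i → F + m i ≤ d ∧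
      ∑ l ∈ univ.filter (fun l => l ∈ J ∨ m i ≤ m l), (m l + (s + 2) - 1).choose (s + 2) ≤
        (d - F - m i + (s + 2)).choose (s + 2)
  · left
    refine max_scale (s + 2) M hr hM k d m J h hh (fun i hi hMi => ?_) hyp
    obtain ⟨h1, h2⟩ := hall i hi hMi
    exact hgood i h1 h2
  · right
    push Not at hall
    -- the largest bad multiplicity
    set B := univ.filter (fun i => i ∉ J ∧ M < m i ∧ ¬ (F + m i ≤ d ∧
      ∑ l ∈ univ.filter (fun l => l ∈ J ∨ m i ≤ m l), (m l + (s + 2) - 1).choose (s + 2) ≤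
        (d - F - m i + (s + 2)).choose (s + 2))) with hB
    have hBne : B.Nonempty := by
      obtain ⟨i, hi1, hi2, hi3⟩ := hall
      refine ⟨i, mem_filter.2 ⟨mem_univ i, hi1, hi2, fun hcon => ?_⟩⟩
      have := hi3 hcon.1
      omega
    obtain ⟨P, hP, hPmax⟩ := exists_max_image B m hBne
    rw [hB, mem_filter] at hP
    obtain ⟨-, hPJ, hPM, hPbad⟩ := hP
    have hT := (hoff P hPJ hPM).resolve_left hPbad
    set x := m P with hx
    set A := above m J (x + 1) with hA
    set L := J ∪ A with hL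
    have hLx : ∀ i, i ∉ L → m i ≤ x := by
      intro i hi
      by_contra hcon
      rw [hL, mem_union, hA, mem_above] at hi
      by_cases hiJ : i ∈ J
      · exact hi (Or.inl hiJ)
      · exact hi (Or.inr ⟨hiJ, by omega⟩)
    have hval : (generalDim (s + 2) (d + x - 1) fun i => if i ∈ L then m i else 0) +
        len (s + 2) m A = h (d + x - 1) := by
      rw [hh]
      refine elem_level s (d + x - 1) (x + 1) m J fun i hi hxi => ?_
      have hig : F + m i ≤ d ∧
          ∑ l ∈ univ.filter (fun l => l ∈ J ∨ m i ≤ m l), (m l + (s + 2) - 1).choose (s + 2) ≤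
            (d - F - m i + (s + 2)).choose (s + 2) := by
        by_contra hcon
        have h1 : i ∈ B := by
          rw [hB, mem_filter]
          exact ⟨mem_univ i, hi, by omega, hcon⟩
        have := hPmax i h1
        omega
      obtain ⟨e, he1, he2⟩ := hgood i hig.1 hig.2
      exact ⟨e, by omega, by rw [← hh]; exact he2⟩
    have hJup := hup (d + x - 1) (by omega)
    have hsumL : ∑ l ∈ L, (m l + (s + 2) - 1).choose (s + 2) =
        ∑ l ∈ J, (m l + (s + 2) - 1).choose (s + 2) + len (s + 2) m A := by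
      unfold BP.len
      rw [hL, sum_union (disjoint_above m J _)]
    have htot := sum_all (r := s + 2) m L
    have hS : (generalDim (s + 2) (d + x - 1) fun i => if i ∈ L then m i else 0) ≤
        len (s + 2) m (univ.filter fun i => i ∉ L) := by
      omega
    have hmax := max_elem (s + 2) x hr k d m L hLx
      (Or.inr ⟨⟨d + x - 1, by omega, hS⟩, by omega⟩)
    have hle : (generalDim (s + 2) d fun i => if i ∈ L then m i else 0) ≤
        generalDim (s + 2) (d + x - 1) fun i => if i ∈ L then m i else 0 :=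
      generalDim_deg (fun i => if i ∈ L then m i else 0) (by omega)
    obtain ⟨p, hp1, hp2⟩ := Pool.Agent.H18.Cub.exists_of_general
      (hmax.and (generalDim_spec (s + 2) d m))
    rw [hp2, max_eq_left (by omega)] at hp1
    exact_mod_cast hp1

/-- The general theorem. -/
theorem of_scale (r M : ℕ) (hr : 2 ≤ r) (hM : 1 ≤ M) (k d : ℕ) (m : Fin k → ℕ)
    (J : Finset (Fin k)) (h : ℕ → ℕ)
    (hh : ∀ j, h j = generalDim r j fun i => if i ∈ J then m i else 0)
    (hup : ∀ j, d ≤ j → h j ≤ (j + r).choose r - ∑ i ∈ J, (m i + r - 1).choose r)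
    (hyp : 16 * M ^ 2 * (M + r - 1).choose r * ((h d - h (d - 1)) -
        (h (d - 66 * M ^ 3 * (M + r - 1).choose r) -
          h (d - 66 * M ^ 3 * (M + r - 1).choose r - 1))) ≤ h d - h (d - 1) ∨
      300 * r * M ^ (r + 4) ≤ d ∧ (h (d - 300 * r * M ^ (r + 4)) : ℤ) =
        ((d - 300 * r * M ^ (r + 4) + r).choose r : ℤ) -
          ∑ i ∈ J, ((m i + r - 1).choose r : ℤ))
    (hoff : OffS r (300 * r * M ^ (r + 4)) M d m J) :
    ForGeneralPoints r k fun p => ImposesMaximalConditions r d p m := by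
  classical
  rcases max_or_zero r M hr hM k d m J h hh hup hyp hoff with h1 | h1
  · refine imposes_of_max (by omega) m J h1 ?_
    have h2 := hup d le_rfl
    have h3 := Pool.Agent.H74.CT.generalDim_ge (r := r) (by omega) d fun i => if i ∈ J then m i else 0
    refine (generalDim_spec r d fun i => if i ∈ J then m i else 0).mono fun p hp => ?_
    unfold ImposesMaximalConditions
    have h4 : ∑ i, (((if i ∈ J then m i else 0) + r - 1).choose r : ℤ) =
        ((∑ i ∈ J, (m i + r - 1).choose r : ℕ) : ℤ) := by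
      push_cast
      rw [← sum_subset (subset_univ J)]
      · exact sum_congr rfl fun i hi => by rw [if_pos hi]
      · intro i _ hi
        rw [if_neg hi, Nat.choose_eq_zero_of_lt (by omega)]
        rfl
    rw [h4] at h3
    rw [hp, h4]
    rw [hh] at h2
    rcases le_total (∑ i ∈ J, (m i + r - 1).choose r) ((d + r).choose r) with h5 | h5
    · rw [max_eq_right (by omega)]
      omega
    · rw [max_eq_left (by omega)]
      omega
  · exact imposes_of_zero (by omega) m h1

/-- The points of `J` impose independent conditions in all degrees from `d - F` on. -/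
theorem of_exactS (r M : ℕ) (hr : 2 ≤ r) (hM : 1 ≤ M) (k d : ℕ) (m : Fin k → ℕ)
    (J : Finset (Fin k)) (hFd : 300 * r * M ^ (r + 4) ≤ d)
    (hex : ∀ j, d ≤ j + 300 * r * M ^ (r + 4) → Exact r j m J)
    (hoff : OffS r (300 * r * M ^ (r + 4)) M d m J) :
    ForGeneralPoints r k fun p => ImposesMaximalConditions r d p m := by
  refine of_scale r M hr hM k d m J (fun j => generalDim r j fun i => if i ∈ J then m i else 0)
    (fun _ => rfl) (fun j hj => ?_) (Or.inr ⟨hFd, ?_⟩) hoff
  · have h1 := hex j (by omega)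
    unfold Exact at h1
    omega
  · have h1 := hex (d - 300 * r * M ^ (r + 4)) (by omega)
    unfold Exact at h1
    have h2 : (((generalDim r (d - 300 * r * M ^ (r + 4)) fun i => if i ∈ J then m i else 0) +
        ∑ i ∈ J, (m i + r - 1).choose r : ℕ) : ℤ) =
        (((d - 300 * r * M ^ (r + 4) + r).choose r : ℕ) : ℤ) := by rw [h1]
    push_cast at h2
    linarith

end Pool.Agent.H74.SC
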