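import Pool.Agent.H74.SC.WinD
import Pool.Agent.H51.TB.Fin

/-!
# The thin window in degree `d`, `m_i + m_j ≤ d + 1`

For fixed `d` and `r` large, a tuple with `m_i + m_j ≤ d + 1` for all `i ≠ j` can only fail if `d` is
odd, the points with `2 m_i = d + 1` carry more than `(1 - η) N` conditions, the number `L` of all
conditions satisfies `|N - L| < K r^(d-1)` and there are fewer than `K r^(d-μ)` points of each
multiplicity `μ ≤ (d + 1) / 4`; and in all cases the dimension is at most `max 0 (N - L) + K r^(d-1)`.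
-/

namespace Pool.Agent.H74.SC.WinE

open Finset MvPolynomial Pool.Agent.H18.Fat Pool.Agent.H18.Ex Pool.Agent.H21.NX
  Pool.Agent.H74.SC.WinD

/-- The length of an `M`-fold point is at most `2^(d-1) r^(M-1)` for `2 M = d + 1`. -/
theorem ell_sq_le (r d M : ℕ) (hM : 1 ≤ M) (hd : 2 * M = d + 1) (hr : M ≤ r) :
    ell r M ^ 2 ≤ 4 ^ d * r ^ (d - 1) := by
  have h1 := ell_le_pow r M hM hr
  calc ell r M ^ 2 ≤ ((2 * r) ^ (M - 1)) ^ 2 := Nat.pow_le_pow_left h1 2
    _ = 2 ^ (d - 1) * r ^ (d - 1) := by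
      rw [← pow_mul, show (M - 1) * 2 = d - 1 by omega, mul_pow]
    _ ≤ 4 ^ d * r ^ (d - 1) := by
      refine Nat.mul_le_mul_right _ ?_
      calc 2 ^ (d - 1) ≤ 2 ^ d := Nat.pow_le_pow_right (by norm_num) (by omega)
        _ ≤ 4 ^ d := Nat.pow_le_pow_left (by norm_num) d

theorem sq_le_N (r d M : ℕ) (hM : 1 ≤ M) (hd : 2 * M = d + 1)
    (hr : 2 * 4 ^ d * (2 * M) ^ (2 * M) ≤ r) (hMr : M ≤ r) :
    2 * ell r M ^ 2 ≤ (d + r).choose r := by
  have h1 := ell_sq_le r d M hM hd hMr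
  have h2 := pow_le_ell r (2 * M) (by omega)
  have h3 : ell r (2 * M) = (d + r).choose r := by
    unfold ell
    rw [hd, show d + 1 + r - 1 = d + r by omega]
  rw [h3] at h2
  have h4 : 0 < (2 * M) ^ (2 * M) := Nat.pow_pos (by omega)
  refine Nat.le_of_mul_le_mul_left ?_ h4
  refine le_trans ?_ h2
  calc (2 * M) ^ (2 * M) * (2 * ell r M ^ 2)
      ≤ (2 * M) ^ (2 * M) * (2 * (4 ^ d * r ^ (d - 1))) :=
        Nat.mul_le_mul_left _ (Nat.mul_le_mul_left _ h1)
    _ = (2 * 4 ^ d * (2 * M) ^ (2 * M)) * r ^ (d - 1) := by ring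
    _ ≤ r * r ^ (d - 1) := Nat.mul_le_mul_right _ hr
    _ = r ^ (2 * M - 1) := by
      rw [← pow_succ']
      congr 1
      omega

/-- If the `M`-fold points, `2 M = d + 1`, carry more than half of `N`, there are at least
`ell r M - 1` of them. -/
theorem many (r d M k : ℕ) (hM : 1 ≤ M) (m : Fin k → ℕ)
    (h2 : 2 * ell r M ^ 2 ≤ (d + r).choose r)
    (h : (1 / 2 : ℝ) * ((d + r).choose r : ℝ) <
      (((univ.filter fun i => m i = M).card * ell r M : ℕ) : ℝ)) :
    ell r M - 1 ≤ (univ.filter fun i => m i = M).card := by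
  have hℓ : 1 ≤ ell r M := ell_pos r hM
  have h3 : ell r M ^ 2 < (univ.filter fun i => m i = M).card * ell r M := by
    have h4 : (2 * ell r M ^ 2 : ℝ) ≤ ((d + r).choose r : ℝ) := by exact_mod_cast h2
    have h5 : ((ell r M ^ 2 : ℕ) : ℝ) <
        (((univ.filter fun i => m i = M).card * ell r M : ℕ) : ℝ) := by
      refine lt_of_le_of_lt ?_ h
      push_cast
      linarith
    exact_mod_cast h5
  rw [pow_two] at h3
  have := lt_of_mul_lt_mul_right h3 (Nat.zero_le _)
  omega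

theorem sum_filter_eq (r k M : ℕ) (m : Fin k → ℕ) (P : Fin k → Prop) [DecidablePred P]
    (hP : ∀ i, P i ↔ m i = M) :
    ∑ i ∈ univ.filter P, ell r (m i) = (univ.filter fun i => m i = M).card * ell r M := by
  rw [show univ.filter P = univ.filter fun i => m i = M from filter_congr fun i _ => hP i,
    Finset.sum_congr rfl fun i hi => by rw [(mem_filter.1 hi).2], Finset.sum_const, smul_eq_mul]

theorem exact_abs (r d M k : ℕ) (hr : 1 ≤ r) (hM : 1 ≤ M) (hMd : M ≤ d + 1) (m : Fin k → ℕ)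
    (hm : ∀ i, m i ≤ M) (hc : ell r M - 1 ≤ (univ.filter fun i => m i = M).card)
    (h : ((ell r M ^ 2 : ℕ) : ℤ) ≤
      |((d + r).choose r : ℤ) - ∑ i, (((m i + r - 1).choose r : ℕ) : ℤ)|) :
    ForGeneralPoints r k fun p => ImposesMaximalConditions r d p m := by
  have e1 : (((∑ i, ell r (m i) : ℕ)) : ℤ) = ∑ i, (((m i + r - 1).choose r : ℕ) : ℤ) := by
    rw [Nat.cast_sum]
    rfl
  rw [← e1] at h
  rcases le_abs.1 h with h | h
  · exact exact_under r d hr M m hm (by omega)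
  · exact exact_over r d hr M hM hMd m hm hc (by omega)

/-- Statement (1) of FixedDegree with the thin window. -/
theorem fixed_one_win (d : ℕ) (η : ℝ) (hη : 0 < η) : ∃ r₀ K : ℕ, ∀ r : ℕ, r₀ ≤ r → ∀ (k : ℕ)
    (m : Fin k → ℕ), (∀ i, 1 ≤ m i) → (∀ i j, i ≠ j → m i + m j ≤ d + 1) →
    ((((∑ i ∈ univ.filter (fun i => 2 * m i = d + 1), (m i + r - 1).choose r : ℕ) : ℝ) ≤
        (1 - η) * ((d + r).choose r : ℝ) ∨
      (K * r ^ (d - 1) : ℤ) ≤
        |((d + r).choose r : ℤ) - ∑ i, (((m i + r - 1).choose r : ℕ) : ℤ)| ∨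
      ∃ μ, 1 ≤ μ ∧ 4 * μ ≤ d + 1 ∧ K * r ^ (d - μ) ≤ (univ.filter fun i => m i = μ).card) →
    ForGeneralPoints r k fun p => ImposesMaximalConditions r d p m) ∧
    ForGeneralPoints r k fun p =>
      (Module.finrank ℂ (fatForms r d p m) : ℤ) ≤
        max 0 (((d + r).choose r : ℤ) - ∑ i, (((m i + r - 1).choose r : ℕ) : ℤ)) +
          (K * r ^ (d - 1) : ℤ) := by
  obtain ⟨r₁, K, h₁⟩ := Pool.Agent.H51.TB.fixed_one d (min η (1 / 2)) (lt_min hη (by norm_num))
  refine ⟨r₁ + 2 * 4 ^ d * (d + 1) ^ (d + 1) + (d + 1) + 1, K + 2 * 4 ^ d,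
    fun r hr k m hm hp => ?_⟩
  have hN : (0 : ℝ) ≤ ((d + r).choose r : ℝ) := Nat.cast_nonneg _
  have hKnn : (0 : ℤ) ≤ ((K + 2 * 4 ^ d : ℕ) * r ^ (d - 1) : ℤ) := by positivity
  by_cases hsmall : ((∑ i ∈ univ.filter (fun i => 2 * m i = d + 1), ell r (m i) : ℕ) : ℝ) ≤
      (1 - min η (1 / 2)) * ((d + r).choose r : ℝ)
  · have h2 := h₁ r (by omega) k m hm hp (Or.inl hsmall)
    refine ⟨fun _ => h2, h2.mono fun p hp => ?_⟩
    unfold ImposesMaximalConditions at hp
    rw [hp]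
    exact le_add_of_nonneg_right hKnn
  · have hne : (univ.filter fun i => 2 * m i = d + 1).Nonempty := by
      rw [Finset.nonempty_iff_ne_empty]
      intro h0
      apply hsmall
      rw [h0, sum_empty, Nat.cast_zero]
      have : min η (1 / 2) ≤ 1 / 2 := min_le_right _ _
      nlinarith
    obtain ⟨i₀, hi₀⟩ := hne
    rw [mem_filter] at hi₀
    obtain ⟨M, hMdef⟩ : ∃ M, M = m i₀ := ⟨_, rfl⟩
    have hMd : 2 * M = d + 1 := by rw [hMdef]; exact hi₀.2
    have hM : 1 ≤ M := by omega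
    have hmM : ∀ i, m i ≤ M := by
      intro i
      by_cases hi : i = i₀
      · rw [hi, hMdef]
      · have := hp i i₀ hi
        omega
    have hrM : M ≤ r := by omega
    have hpow : 2 * 4 ^ d * (2 * M) ^ (2 * M) ≤ r := by
      rw [hMd]
      omega
    have hsq := sq_le_N r d M hM hMd hpow hrM
    have hsum := sum_filter_eq r k M m (fun i => 2 * m i = d + 1) fun i => by
      constructor <;> intro h <;> omega
    rw [hsum] at hsmall
    push Not at hsmall
    have hc := many r d M k hM m hsq (by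
      refine lt_of_le_of_lt ?_ hsmall
      have : min η (1 / 2) ≤ 1 / 2 := min_le_right _ _
      nlinarith)
    have hℓ2 := ell_sq_le r d M hM hMd hrM
    refine ⟨fun hcase => ?_, (general_bound r d (by omega) M hM (by omega) m hmM).mono
      fun p hp => hp.trans ?_⟩
    · rcases hcase with h | h | ⟨μ, hμ1, hμ4, hμ⟩
      · refine h₁ r (by omega) k m hm hp (Or.inl (le_trans ?_ (le_trans h ?_)))
        · exact le_of_eq rfl
        · have : min η (1 / 2) ≤ η := min_le_left _ _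
          nlinarith
      · refine exact_abs r d M k (by omega) hM (by omega) m hmM hc (le_trans ?_ h)
        have h3 : ell r M ^ 2 ≤ (K + 2 * 4 ^ d) * r ^ (d - 1) := by
          refine hℓ2.trans (Nat.mul_le_mul_right _ ?_)
          omega
        exact_mod_cast h3
      · refine h₁ r (by omega) k m hm hp (Or.inr ⟨μ, hμ1, hμ4, le_trans ?_ hμ⟩)
        exact Nat.mul_le_mul_right _ (by omega)
    · have h4 : ell r M * (ell r M + 1) ≤ (K + 2 * 4 ^ d) * r ^ (d - 1) := by
        have hℓ : 1 ≤ ell r M := ell_pos r hM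
        calc ell r M * (ell r M + 1) ≤ 2 * ell r M ^ 2 := by nlinarith
          _ ≤ 2 * (4 ^ d * r ^ (d - 1)) := Nat.mul_le_mul_left _ hℓ2
          _ = (2 * 4 ^ d) * r ^ (d - 1) := by ring
          _ ≤ (K + 2 * 4 ^ d) * r ^ (d - 1) := Nat.mul_le_mul_right _ (by omega)
      have h5 : ((ell r M * (ell r M + 1) : ℕ) : ℤ) ≤
          (((K + 2 * 4 ^ d) * r ^ (d - 1) : ℕ) : ℤ) := by exact_mod_cast h4
      push_cast at h5 ⊢
      linarith

end Pool.Agent.H74.SC.WinE
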