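import Pool.Agent.H74.SC.WinE

/-!
# The thin window in degree `2 M - 1`, multiplicities at most `M`

`bounded_win`: the statement of `TB.bounded` with the alternative `K(M) r^(2M-2) ≤ |N - L|` in degree
`2 M - 1`.
-/

namespace Pool.Agent.H74.SC.WinF

open Finset MvPolynomial Pool.Agent.H18.Fat Pool.Agent.H18.Ex Pool.Agent.H21.NX
  Pool.Agent.H74.SC.WinD Pool.Agent.H74.SC.WinE

/-- Bounded multiplicities, with the thin window in degree `2 M - 1`. -/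
theorem bounded_win (η : ℝ) (hη : 0 < η) : ∃ C : ℝ, 0 < C ∧ ∃ r₀ K : ℕ → ℕ, ∀ r M d k : ℕ, 1 ≤ r →
    1 ≤ M → ∀ m : Fin k → ℕ, (∀ i, 1 ≤ m i ∧ m i ≤ M) →
    ((C * M * (1 + (M : ℝ) / r) ^ 3 * (M : ℝ) ^ (22 / (r : ℝ)) ≤ d ∨
      (r₀ M ≤ r ∧ 2 * M ≤ d) ∨
      (r₀ M ≤ r ∧ 2 * M ≤ d + 1 ∧
        ((((univ.filter fun i => m i = M).card * (M + r - 1).choose r : ℕ) : ℝ) ≤
          (1 - η) * ((d + r).choose r : ℝ) ∨
        (K M * r ^ (d - 1) : ℤ) ≤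
          |((d + r).choose r : ℤ) - ∑ i, (((m i + r - 1).choose r : ℕ) : ℤ)| ∨
        ∃ μ, 1 ≤ μ ∧ 2 * μ + M ≤ d + 1 ∧
          K M * r ^ (d - μ) ≤ (univ.filter fun i => m i = μ).card))) →
    ForGeneralPoints r k fun p => ImposesMaximalConditions r d p m) ∧
    (r₀ M ≤ r → 2 * M ≤ d + 1 → ForGeneralPoints r k fun p =>
      (Module.finrank ℂ (fatForms r d p m) : ℤ) ≤
        max 0 (((d + r).choose r : ℤ) - ∑ i, (((m i + r - 1).choose r : ℕ) : ℤ)) +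
          (K M * r ^ (d - 1) : ℤ)) := by
  obtain ⟨C, hC, r₁, K₁, h1⟩ := Pool.Agent.H51.TB.bounded η hη
  choose r₂ K₂ h2 using fun M : ℕ => fixed_one_win (2 * M - 1) η hη
  refine ⟨C, hC, fun M => r₁ M + r₂ M, fun M => K₁ M + K₂ M, fun r M d k hr hM m hm => ?_⟩
  have hpair : ∀ i j, i ≠ j → m i + m j ≤ 2 * M - 1 + 1 := fun i j _ => by
    have := (hm i).2
    have := (hm j).2
    omega
  have hKr : ∀ e : ℕ, K₁ M * r ^ e ≤ (K₁ M + K₂ M) * r ^ e := fun e =>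
    Nat.mul_le_mul_right _ (by omega)
  have hKr' : ∀ e : ℕ, K₂ M * r ^ e ≤ (K₁ M + K₂ M) * r ^ e := fun e =>
    Nat.mul_le_mul_right _ (by omega)
  refine ⟨fun hcase => ?_, fun h3 h4 => ?_⟩
  · rcases hcase with h | ⟨h3, h4⟩ | ⟨h3, h4, h5 | h5 | ⟨μ, hμ1, hμ2, h5⟩⟩
    · exact h1 r M d k hr hM m hm (Or.inl h)
    · have h3' : r₁ M + r₂ M ≤ r := h3
      exact h1 r M d k hr hM m hm (Or.inr (Or.inl ⟨by omega, h4⟩))
    · have h3' : r₁ M + r₂ M ≤ r := h3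
      exact h1 r M d k hr hM m hm (Or.inr (Or.inr (Or.inl ⟨by omega, h4, h5⟩)))
    · have h3' : r₁ M + r₂ M ≤ r := h3
      by_cases hd : 2 * M ≤ d
      · exact h1 r M d k hr hM m hm (Or.inr (Or.inl ⟨by omega, hd⟩))
      · obtain rfl : d = 2 * M - 1 := by omega
        refine (h2 M r (by omega) k m (fun i => (hm i).1) hpair).1 (Or.inr (Or.inl ?_))
        refine le_trans ?_ h5
        exact_mod_cast hKr' (2 * M - 1 - 1)
    · have h3' : r₁ M + r₂ M ≤ r := h3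
      exact h1 r M d k hr hM m hm (Or.inr (Or.inr (Or.inr ⟨by omega, h4, μ, hμ1, hμ2,
        (hKr _).trans h5⟩)))
  · have h3' : r₁ M + r₂ M ≤ r := h3
    have hnn : (0 : ℤ) ≤ ((K₁ M + K₂ M : ℕ) * r ^ (d - 1) : ℤ) := by positivity
    by_cases hd : 2 * M ≤ d
    · refine (h1 r M d k hr hM m hm (Or.inr (Or.inl ⟨by omega, hd⟩))).mono fun p hp => ?_
      unfold ImposesMaximalConditions at hp
      rw [hp]
      exact le_add_of_nonneg_right hnn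
    · obtain rfl : d = 2 * M - 1 := by omega
      refine (h2 M r (by omega) k m (fun i => (hm i).1) hpair).2.mono fun p hp => hp.trans ?_
      have h6 : (K₂ M * r ^ (2 * M - 1 - 1) : ℤ) ≤ ((K₁ M + K₂ M : ℕ) * r ^ (2 * M - 1 - 1) : ℤ) := by
        exact_mod_cast hKr' (2 * M - 1 - 1)
      linarith

end Pool.Agent.H74.SC.WinF
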